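import Pool.Agent.H93.PF.Fifteen
import Pool.Agent.H12.PG.Index

/-!
# The possible orders of a symplectomorphism: the class `H`
-/

namespace Pool.Agent.H93.PF

open Finset Pool.Agent.H18.PG

variable {n : ℕ}

/-- If the weights of `H` are the negatives of the weights `w`, the order is at most sixteen and
not fifteen. -/
lemma typeA (hn : 1 < n) (A : FakePlaneAction n) {e : ZMod n} (he : ∀ i, A.h i = -A.w i + e) :
    n ≤ 16 ∧ n ≠ 15 := by
  have : NeZero n := ⟨by omega⟩
  obtain ⟨r, hr⟩ := exists_fixed A
  have hd := A.deg_pos r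
  have hd4 := deg_le A r
  refine ⟨le_16 (A.curve r hr) A.isUnit_sub he hd hd4, ?_⟩
  rintro rfl
  exact not_fifteen A.isUnit_sub he (A.curve r hr) hd hd4

/-- The order is not divisible by three, except for the order three. -/
theorem not_three_dvd (hn : 3 < n) (A : PlaneAction n) : ¬ 3 ∣ n := by
  intro hn3
  have : NeZero n := ⟨by omega⟩
  have hn2 := odd_of_isUnit A.isUnit_sub
  have hn9 : ¬ 9 ∣ n := by
    intro h9
    have := order_eq (by omega) (Or.inr h9) A.toFakePlaneAction
    omega
  have hn15 : 15 ≤ n := by omega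
  rcases weights_cases A.isUnit_sub A.euler with ⟨e, he⟩ | hne
  · have h1 := typeA (by omega) A.toFakePlaneAction he
    omega
  · have h3 := three_mul_sub A.canonical
    obtain ⟨d, hd, ⟨C⟩⟩ := A.low (Pool.Agent.H12.PG.exists_ind_of_ne hn A.isUnit_sub h3 hne
      A.ind A.ind_sum A.lefschetz)
    exact sharp_core hn15 hn3 hn9 A.isUnit_sub h3 hne (by omega) (by omega) C

/-- The possible orders. -/
theorem order_low (hn : 1 < n) (A : PlaneAction n) : n = 3 ∨ n = 5 ∨ n = 7 ∨ n = 11 := by
  by_cases h3 : 3 ∣ n
  · by_cases h : 3 < n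
    · exact absurd h3 (not_three_dvd h A)
    · have := Nat.le_of_dvd (by omega) h3
      omega
  · have := order_eq hn (Or.inl h3) A.toFakePlaneAction
    omega

end Pool.Agent.H93.PF
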