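import Pool.Agent.H93.PF.Weights

/-!
# The bound for the order
-/

namespace Pool.Agent.H93.PF

open Finset

variable {n : ℕ}

/-- The sum of the least orders of vanishing of the coordinate `j`. -/
def coordSum {w h : Fin 3 → ZMod n} {d : ℕ} (C : InvCurve n w h d) (j : Fin 3) : ℕ :=
  ∑ s, n / C.stab s * (((w j - w (C.pt s)) * C.u s).val % C.stab s)

lemma expo_add (w : Fin 3 → ZMod n) (i : Fin 3) (m : ℕ) (u : ZMod n) :
    (expo w i m u).1 + (expo w i m u).2 = ∑ j, ((w j - w i) * u).val % m := by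
  rw [Fin.sum_univ_three]
  fin_cases i
  · simp [expo]
  · simp [expo, add_comm]
  · simp [expo]

lemma sum_expo {w h : Fin 3 → ZMod n} {d : ℕ} (C : InvCurve n w h d) :
    ∑ s, n / C.stab s * ((expo w (C.pt s) (C.stab s) (C.u s)).1 +
      (expo w (C.pt s) (C.stab s) (C.u s)).2) =
      coordSum C 0 + coordSum C 1 + coordSum C 2 := by
  unfold coordSum
  rw [← sum_add_distrib, ← sum_add_distrib]
  refine sum_congr rfl fun s _ => ?_
  rw [expo_add, Fin.sum_univ_three]
  ring

/-- Only the residue modulo the stabilizer counts. -/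
lemma cast_mod [NeZero n] {m : ℕ} (hm : m ∣ n) (x : ZMod n) :
    ((n / m * (x.val % m) : ℕ) : ZMod n) = ((n / m : ℕ) : ZMod n) * x := by
  obtain ⟨q, hq⟩ := hm
  have hm0 : 0 < m := Nat.pos_of_ne_zero fun h0 => NeZero.ne n (by rw [hq, h0, zero_mul])
  have h1 : n / m = q := by
    rw [hq, Nat.mul_div_cancel_left _ hm0]
  rw [h1]
  have h2 : x.val = m * (x.val / m) + x.val % m := (Nat.div_add_mod _ _).symm
  have h3 : q * x.val = n * (x.val / m) + q * (x.val % m) := by
    calc q * x.val = q * (m * (x.val / m) + x.val % m) := by rw [← h2]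
      _ = m * q * (x.val / m) + q * (x.val % m) := by ring
      _ = _ := by rw [← hq]
  have h4 : ((q * x.val : ℕ) : ZMod n) = ((q * (x.val % m) : ℕ) : ZMod n) := by
    rw [h3, Nat.cast_add, Nat.cast_mul, ZMod.natCast_self, zero_mul, zero_add]
  rw [← h4, Nat.cast_mul, ZMod.natCast_zmod_val]

/-- A product with a unit stays prime to the order of the stabilizer. -/
lemma coprime_mul [NeZero n] {m : ℕ} (hm : m ∣ n) {x u : ZMod n} (hx : IsUnit x)
    (hu : u.val.Coprime m) : (x * u).val.Coprime m := by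
  have h1 : x.val.Coprime m := by
    have : IsUnit ((x.val : ℕ) : ZMod n) := by rwa [ZMod.natCast_zmod_val]
    exact Nat.Coprime.coprime_dvd_right hm ((ZMod.isUnit_iff_coprime _ _).1 this)
  have h2 : (x.val * u.val).Coprime m := Nat.Coprime.mul_left h1 hu
  rw [ZMod.val_mul]
  have h3 : x.val * u.val = n * (x.val * u.val / n) + x.val * u.val % n :=
    (Nat.div_add_mod _ _).symm
  obtain ⟨k, hk⟩ := hm
  have h4 : (x.val * u.val % n + k * (x.val * u.val / n) * m).Coprime m := by
    have : x.val * u.val % n + k * (x.val * u.val / n) * m = x.val * u.val := by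
      conv_rhs => rw [h3]
      have : n * (x.val * u.val / n) = k * (x.val * u.val / n) * m := by
        conv_lhs => rw [show n * (x.val * u.val / n) = m * k * (x.val * u.val / n) by rw [← hk]]
        ring
      omega
    rwa [this]
  exact (Nat.coprime_add_mul_right_left _ _ _).1 h4

lemma mod_pos [NeZero n] {m : ℕ} (hm : m ∣ n) (h1 : 1 < m) {x u : ZMod n} (hx : IsUnit x)
    (hu : u.val.Coprime m) : 0 < (x * u).val % m := by
  rw [Nat.pos_iff_ne_zero]
  intro h0
  have h2 := coprime_mul hm hx hu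
  have h3 : m ∣ (x * u).val := Nat.dvd_of_mod_eq_zero h0
  have h4 := Nat.Coprime.eq_one_of_dvd (Nat.coprime_comm.1 h2) h3
  omega

lemma succ_ne (i : Fin 3) : i + 1 ≠ i := by
  fin_cases i <;> decide

lemma succ_succ_ne (i : Fin 3) : i + 2 ≠ i := by
  fin_cases i <;> decide

section
variable {w h : Fin 3 → ZMod n} {d : ℕ} (C : InvCurve n w h d)

lemma expo_le_ord (s : Fin C.num) :
    (expo w (C.pt s) (C.stab s) (C.u s)).1 ≤ (C.ord s).1 ∧
      (expo w (C.pt s) (C.stab s) (C.u s)).2 ≤ (C.ord s).2 := by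
  rw [← C.ord_fst s, ← C.ord_snd s]
  exact ⟨Nat.mod_le _ _, Nat.mod_le _ _⟩

lemma self_mono {x y : ℕ × ℕ} (h1 : x.1 ≤ y.1) (h2 : x.2 ≤ y.2) : selfTerm x ≤ selfTerm y :=
  Nat.mul_le_mul (Nat.sub_le_sub_right h1 1) (Nat.sub_le_sub_right h2 1)

lemma cross_mono {x y x' y' : ℕ × ℕ} (h1 : x.1 ≤ y.1) (h2 : x.2 ≤ y.2) (h3 : x'.1 ≤ y'.1)
    (h4 : x'.2 ≤ y'.2) : crossTerm x x' ≤ crossTerm y y' :=
  min_le_min (Nat.mul_le_mul h1 h4) (Nat.mul_le_mul h3 h2)

/-- The local inequality with the least exponents. -/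
lemma delta_ge' : ∑ s, n / C.stab s * (selfTerm (expo w (C.pt s) (C.stab s) (C.u s)) +
      (n / C.stab s - 1) * crossTerm (expo w (C.pt s) (C.stab s) (C.u s))
        (expo w (C.pt s) (C.stab s) (C.u s))) +
    ∑ s, ∑ s' with s' ≠ s ∧ C.pt s' = C.pt s, n / C.stab s * (n / C.stab s') *
      crossTerm (expo w (C.pt s) (C.stab s) (C.u s)) (expo w (C.pt s') (C.stab s') (C.u s')) ≤
    2 * C.delta := by
  refine le_trans (add_le_add ?_ ?_) C.delta_ge
  · refine sum_le_sum fun s _ => Nat.mul_le_mul_left _ (add_le_add ?_ (Nat.mul_le_mul_left _ ?_))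
    · exact self_mono (expo_le_ord C s).1 (expo_le_ord C s).2
    · exact cross_mono (expo_le_ord C s).1 (expo_le_ord C s).2 (expo_le_ord C s).1
        (expo_le_ord C s).2
  · refine sum_le_sum fun s _ => sum_le_sum fun s' _ => Nat.mul_le_mul_left _ ?_
    exact cross_mono (expo_le_ord C s).1 (expo_le_ord C s).2 (expo_le_ord C s').1
        (expo_le_ord C s').2

include C

lemma sum_weight {e : ZMod n} (he : ∀ i, h i = -w i + e) :
    ∑ s, ((n / C.stab s : ℕ) : ZMod n) * (w (C.pt s) * C.u s) = d := by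
  have h1 := C.degree_eq
  have h4 : ∀ s, ((n / C.stab s : ℕ) : ZMod n) * (h (C.pt s) * C.u s) =
      e * (((n / C.stab s : ℕ) : ZMod n) * C.u s) -
        ((n / C.stab s : ℕ) : ZMod n) * (w (C.pt s) * C.u s) := by
    intro s
    rw [he]
    ring
  rw [sum_congr rfl fun s _ => h4 s, sum_sub_distrib, ← mul_sum, C.rotation] at h1
  linear_combination -h1

variable [NeZero n]

lemma coordSum_cast {e : ZMod n} (he : ∀ i, h i = -w i + e) (j : Fin 3) :
    ((coordSum C j + d : ℕ) : ZMod n) = 0 := by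
  have h4 : ((coordSum C j : ℕ) : ZMod n) = -d := by
    unfold coordSum
    rw [Nat.cast_sum, sum_congr rfl fun s _ => cast_mod (C.stab_dvd s) _]
    have : ∑ s, ((n / C.stab s : ℕ) : ZMod n) * ((w j - w (C.pt s)) * C.u s) =
        w j * ∑ s, ((n / C.stab s : ℕ) : ZMod n) * C.u s -
          ∑ s, ((n / C.stab s : ℕ) : ZMod n) * (w (C.pt s) * C.u s) := by
      rw [mul_sum, ← sum_sub_distrib]
      refine sum_congr rfl fun s _ => ?_
      ring
    rw [this, C.rotation, sum_weight C he]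
    ring
  rw [Nat.cast_add, h4]
  ring

lemma coordSum_mod {e : ZMod n} (he : ∀ i, h i = -w i + e) (j : Fin 3) :
    n ∣ coordSum C j + d := (ZMod.natCast_eq_zero_iff _ _).1 (coordSum_cast C he j)

/-- Each coordinate vanishes at least to the order `n - d` along the curve. -/
lemma coordSum_ge {e : ZMod n} (he : ∀ i, h i = -w i + e) (hd : 0 < d) (j : Fin 3) :
    n ≤ coordSum C j + d := Nat.le_of_dvd (by omega) (coordSum_mod C he j)

/-- The index inequality. -/
lemma index_le : 3 * d + (coordSum C 0 + coordSum C 1 + coordSum C 2) + n ≤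
    n * (C.quotGenus + C.num) := by
  have h4 := C.index
  rwa [sum_expo] at h4

/-- The first consequence of the index inequality. -/
lemma four_le {e : ZMod n} (he : ∀ i, h i = -w i + e) (hd : 0 < d) :
    4 ≤ C.quotGenus + C.num := by
  have h0 := coordSum_ge C he hd 0
  have h1 := coordSum_ge C he hd 1
  have h2 := coordSum_ge C he hd 2
  have h4 := index_le C
  have hn : 0 < n := Nat.pos_of_ne_zero (NeZero.ne n)
  by_contra hlt
  have h5 : C.quotGenus + C.num ≤ 3 := by omega
  have h6 : n * (C.quotGenus + C.num) ≤ n * 3 := Nat.mul_le_mul_left _ h5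
  omega

/-- If there are only four branches, there is equality everywhere. -/
lemma coordSum_eq {e : ZMod n} (he : ∀ i, h i = -w i + e) (hd : 0 < d)
    (hq : C.quotGenus + C.num = 4) (j : Fin 3) : coordSum C j + d = n := by
  have h0 := coordSum_ge C he hd 0
  have h1 := coordSum_ge C he hd 1
  have h2 := coordSum_ge C he hd 2
  have h4 := index_le C
  rw [hq] at h4
  fin_cases j
  · show coordSum C 0 + d = n
    omega
  · show coordSum C 1 + d = n
    omega
  · show coordSum C 2 + d = n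
    omega

omit [NeZero n] in
lemma genus_delta (hd4 : d ≤ 4) : 2 * C.genus + 2 * C.delta ≤ 30 := by
  have h1 := C.adjunction
  have : d ^ 2 ≤ 4 ^ 2 := Nat.pow_le_pow_left hd4 2
  omega

/-- The bound for the order. -/
lemma le_16 (hw : ∀ i j, i ≠ j → IsUnit (w i - w j)) {e : ZMod n} (he : ∀ i, h i = -w i + e)
    (hd : 0 < d) (hd4 : d ≤ 4) : n ≤ 16 := by
  have h1 := four_le C he hd
  have h4 := C.hurwitz
  have h5 := genus_delta C hd4
  have hn : 0 < n := Nat.pos_of_ne_zero (NeZero.ne n)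
  have h6 : ∀ s, n - 1 ≤ (n - n / C.stab s) + n / C.stab s *
      (selfTerm (expo w (C.pt s) (C.stab s) (C.u s)) +
      (n / C.stab s - 1) * crossTerm (expo w (C.pt s) (C.stab s) (C.u s))
        (expo w (C.pt s) (C.stab s) (C.u s))) := by
    intro s
    have hpos : 0 < n / C.stab s := Nat.div_pos (Nat.le_of_dvd hn (C.stab_dvd s))
      (by have := C.one_lt_stab s; omega)
    have a1 : 0 < (expo w (C.pt s) (C.stab s) (C.u s)).1 :=
      mod_pos (C.stab_dvd s) (C.one_lt_stab s) (hw _ _ (succ_ne _)) (C.coprime s)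
    have a2 : 0 < (expo w (C.pt s) (C.stab s) (C.u s)).2 :=
      mod_pos (C.stab_dvd s) (C.one_lt_stab s) (hw _ _ (succ_succ_ne _)) (C.coprime s)
    have a3 : 1 ≤ crossTerm (expo w (C.pt s) (C.stab s) (C.u s))
        (expo w (C.pt s) (C.stab s) (C.u s)) := lt_min (Nat.mul_pos a1 a2) (Nat.mul_pos a1 a2)
    have hle : n / C.stab s ≤ n := Nat.div_le_self _ _
    obtain ⟨q, hq⟩ : ∃ q, n / C.stab s = q + 1 := ⟨n / C.stab s - 1, by omega⟩
    rw [hq] at hle ⊢
    rw [Nat.add_sub_cancel]
    have a4 : q * 1 ≤ q * crossTerm (expo w (C.pt s) (C.stab s) (C.u s))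
        (expo w (C.pt s) (C.stab s) (C.u s)) := Nat.mul_le_mul_left _ a3
    have a5 : 1 * q ≤ (q + 1) * (selfTerm (expo w (C.pt s) (C.stab s) (C.u s)) +
      q * crossTerm (expo w (C.pt s) (C.stab s) (C.u s))
        (expo w (C.pt s) (C.stab s) (C.u s))) :=
      Nat.mul_le_mul (by omega) (by omega)
    omega
  have h7 : C.num * (n - 1) ≤ ∑ s, (n - n / C.stab s) + 2 * C.delta := by
    refine le_trans ?_ (Nat.add_le_add_left (le_trans (Nat.le_add_right _ _) (delta_ge' C)) _)
    rw [← sum_add_distrib]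
    calc C.num * (n - 1) = ∑ _s : Fin C.num, (n - 1) := by simp
      _ ≤ _ := sum_le_sum fun s _ => h6 s
  obtain ⟨q, rfl⟩ : ∃ q, n = q + 1 := ⟨n - 1, by omega⟩
  rw [Nat.add_sub_cancel] at h7
  have h8 : 4 * q ≤ (C.quotGenus + C.num) * q := Nat.mul_le_mul_right _ h1
  have h9 : (C.quotGenus + C.num) * q ≤ 2 * (q + 1) * C.quotGenus + C.num * q := by
    have : C.quotGenus * q ≤ 2 * (q + 1) * C.quotGenus := by nlinarith
    nlinarith
  omega

end

section
variable [Fact n.Prime] {w h : Fin 3 → ZMod n} {d : ℕ} (C : InvCurve n w h d)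

lemma stab_eq (s : Fin C.num) : C.stab s = n :=
  ((Nat.dvd_prime Fact.out).1 (C.stab_dvd s)).resolve_left (C.one_lt_stab s).ne'

end

end Pool.Agent.H93.PF
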