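import Mathlib

/-!
# Finite checks for the orders nine, eleven and thirteen
-/

namespace Pool.Agent.H93.PF

/-- The exponent of the coordinate `j` along a branch `(i, a, b)` at the point `i`. -/
def coordE (j : ℕ) (x : ℕ × ℕ × ℕ) : ℕ :=
  bif x.1 == j then 0 else bif (x.1 + 1) % 3 == j then x.2.1 else x.2.2

/-- The term `(a - 1) (b - 1)`. -/
def selfT (x : ℕ × ℕ × ℕ) : ℕ := (x.2.1 - 1) * (x.2.2 - 1)

/-- The intersection bound of two branches, zero if they are at different points. -/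
def crossT (x y : ℕ × ℕ × ℕ) : ℕ :=
  bif x.1 == y.1 then
    bif Nat.ble (x.2.1 * y.2.2) (y.2.1 * x.2.2) then x.2.1 * y.2.2 else y.2.1 * x.2.2
  else 0

/-- The sum of the exponents of the coordinate `j`. -/
def eSum (j : ℕ) : List (ℕ × ℕ × ℕ) → ℕ
  | [] => 0
  | x :: l => coordE j x + eSum j l

/-- The sum of the intersection bounds with `x`. -/
def cSum (x : ℕ × ℕ × ℕ) : List (ℕ × ℕ × ℕ) → ℕ
  | [] => 0
  | y :: l => crossT x y + cSum x l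

/-- The lower bound for `2 δ`. -/
def cost : List (ℕ × ℕ × ℕ) → ℕ
  | [] => 0
  | x :: l => selfT x + 2 * cSum x l + cost l

/-- The list satisfies the bounds. -/
def okLe (N : ℕ × ℕ × ℕ) (B : ℕ) (l : List (ℕ × ℕ × ℕ)) : Bool :=
  Nat.ble (eSum 0 l) N.1 && Nat.ble (eSum 1 l) N.2.1 && Nat.ble (eSum 2 l) N.2.2 &&
    Nat.ble (cost l) B

/-- The list satisfies the conditions. -/
def okEq (N : ℕ × ℕ × ℕ) (B : ℕ) (l : List (ℕ × ℕ × ℕ)) : Bool :=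
  Nat.beq (eSum 0 l) N.1 && Nat.beq (eSum 1 l) N.2.1 && Nat.beq (eSum 2 l) N.2.2 &&
    Nat.ble (cost l) B

/-- No extension of the list `l` by `c` elements of `L` satisfies the conditions. -/
def search (N : ℕ × ℕ × ℕ) (B : ℕ) (L : List (ℕ × ℕ × ℕ)) : ℕ → List (ℕ × ℕ × ℕ) → Bool
  | 0, l => !okEq N B l
  | c + 1, l => L.all fun x => !okLe N B (x :: l) || search N B L c (x :: l)

/-- The branches with exponents at most nine for the weights `0, 1, t` modulo thirteen. -/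
def list13 : ℕ → List (ℕ × ℕ × ℕ)
  | 2 => [
    (0, 1, 2), (0, 2, 4), (0, 3, 6), (0, 4, 8), (0, 7, 1), (0, 8, 3), (0, 9, 5), (1, 4, 9), (1,
    5, 8), (1, 6, 7), (1, 7, 6), (1, 8, 5), (1, 9, 4), (2, 5, 9), (2, 3, 8), (2, 1, 7), (2, 8,
    4), (2, 6, 3), (2, 4, 2), (2, 2, 1)]
  | 3 => [
    (0, 1, 3), (0, 2, 6), (0, 3, 9), (0, 5, 2), (0, 6, 5), (0, 7, 8), (0, 9, 1), (1, 8, 9), (1,
    1, 6), (1, 3, 5), (1, 5, 4), (1, 7, 3), (1, 9, 2), (2, 7, 9), (2, 4, 7), (2, 1, 5), (2, 8,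
    1), (2, 9, 6), (2, 6, 4), (2, 3, 2)]
  | 4 => [
    (0, 1, 4), (0, 2, 8), (0, 4, 3), (0, 5, 7), (0, 7, 2), (0, 8, 6), (1, 2, 8), (1, 5, 7), (1,
    8, 6), (1, 1, 4), (1, 4, 3), (1, 7, 2), (2, 5, 7), (2, 1, 4), (2, 2, 8), (2, 7, 2), (2, 8,
    6), (2, 4, 3)]
  | 5 => [
    (0, 1, 5), (0, 3, 2), (0, 4, 7), (0, 6, 4), (0, 7, 9), (0, 8, 1), (0, 9, 6), (1, 3, 9), (1,
    7, 8), (1, 2, 6), (1, 6, 5), (1, 1, 3), (1, 5, 2), (1, 9, 1), (2, 8, 9), (2, 3, 5), (2, 1,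
    6), (2, 9, 2), (2, 7, 3), (2, 5, 4)]
  | 6 => [
    (0, 1, 6), (0, 3, 5), (0, 5, 4), (0, 7, 3), (0, 8, 9), (0, 9, 2), (1, 7, 9), (1, 4, 7), (1,
    9, 6), (1, 1, 5), (1, 6, 4), (1, 3, 2), (1, 8, 1), (2, 7, 8), (2, 1, 3), (2, 2, 6), (2, 9,
    1), (2, 3, 9), (2, 5, 2), (2, 6, 5)]
  | 7 => [
    (0, 1, 7), (0, 2, 1), (0, 3, 8), (0, 4, 2), (0, 5, 9), (0, 6, 3), (0, 8, 4), (1, 4, 8), (1,
    3, 6), (1, 9, 5), (1, 2, 4), (1, 8, 3), (1, 1, 2), (1, 7, 1), (2, 6, 7), (2, 5, 8), (2, 4,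
    9), (2, 9, 4), (2, 8, 5), (2, 7, 6)]
  | 8 => [
    (0, 1, 8), (0, 2, 3), (0, 4, 6), (0, 5, 1), (0, 6, 9), (0, 7, 4), (0, 9, 7), (1, 2, 9), (1,
    9, 8), (1, 3, 7), (1, 4, 5), (1, 5, 3), (1, 6, 1), (2, 5, 6), (2, 2, 5), (2, 9, 3), (2, 1,
    9), (2, 6, 2), (2, 3, 1), (2, 8, 7)]
  | 9 => [
    (0, 1, 9), (0, 2, 5), (0, 3, 1), (0, 5, 6), (0, 6, 2), (0, 8, 7), (0, 9, 3), (1, 6, 9), (1,
    1, 8), (1, 9, 7), (1, 4, 6), (1, 7, 4), (1, 2, 3), (1, 5, 1), (2, 4, 5), (2, 3, 7), (2, 2,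
    9), (2, 6, 1), (2, 5, 3), (2, 9, 8)]
  | 10 => [
    (0, 2, 7), (0, 3, 4), (0, 4, 1), (0, 6, 8), (0, 7, 5), (0, 8, 2), (1, 6, 8), (1, 2, 7), (1,
    7, 5), (1, 3, 4), (1, 8, 2), (1, 4, 1), (2, 3, 4), (2, 6, 8), (2, 2, 7), (2, 8, 2), (2, 4,
    1), (2, 7, 5)]
  | 11 => [
    (0, 2, 9), (0, 3, 7), (0, 4, 5), (0, 5, 3), (0, 6, 1), (0, 9, 8), (1, 1, 9), (1, 8, 7), (1,
    5, 6), (1, 2, 5), (1, 9, 3), (1, 6, 2), (1, 3, 1), (2, 2, 3), (2, 4, 6), (2, 6, 9), (2, 1,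
    8), (2, 5, 1), (2, 7, 4), (2, 9, 7)]
  | 12 => [
    (0, 4, 9), (0, 5, 8), (0, 6, 7), (0, 7, 6), (0, 8, 5), (0, 9, 4), (1, 5, 9), (1, 3, 8), (1,
    1, 7), (1, 8, 4), (1, 6, 3), (1, 4, 2), (1, 2, 1), (2, 1, 2), (2, 2, 4), (2, 3, 6), (2, 4,
    8), (2, 7, 1), (2, 8, 3), (2, 9, 5)]
  | _ => []

/-- The branches with exponents at most seven for the weights `0, 1, t` modulo eleven, when
`0, 1, t` are in arithmetic progression. -/
def list11 : ℕ → List (ℕ × ℕ × ℕ)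
  | 2 => [
    (0, 1, 2), (0, 2, 4), (0, 3, 6), (0, 6, 1), (0, 7, 3), (1, 4, 7), (1, 5, 6), (1, 6, 5), (1,
    7, 4), (2, 3, 7), (2, 1, 6), (2, 6, 3), (2, 4, 2), (2, 2, 1)]
  | 6 => [
    (0, 1, 6), (0, 2, 1), (0, 3, 7), (0, 4, 2), (0, 6, 3), (1, 3, 6), (1, 2, 4), (1, 7, 3), (1,
    1, 2), (1, 6, 1), (2, 5, 6), (2, 4, 7), (2, 7, 4), (2, 6, 5)]
  | 10 => [
    (0, 4, 7), (0, 5, 6), (0, 6, 5), (0, 7, 4), (1, 3, 7), (1, 1, 6), (1, 6, 3), (1, 4, 2), (1,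
    2, 1), (2, 1, 2), (2, 2, 4), (2, 3, 6), (2, 6, 1), (2, 7, 3)]
  | _ => []

/-- The branches with stabilizers of order nine for the weights `0, 1, t` modulo nine. -/
def list9 : ℕ → List (ℕ × ℕ × ℕ)
  | 2 => [
    (0, 1, 2), (0, 2, 4), (0, 4, 8), (0, 5, 1), (0, 7, 5), (0, 8, 7), (1, 1, 8), (1, 2, 7), (1,
    4, 5), (1, 5, 4), (1, 7, 2), (1, 8, 1), (2, 7, 8), (2, 5, 7), (2, 1, 5), (2, 8, 4), (2, 4,
    2), (2, 2, 1)]
  | 5 => [
    (0, 1, 5), (0, 2, 1), (0, 4, 2), (0, 5, 7), (0, 7, 8), (0, 8, 4), (1, 4, 8), (1, 8, 7), (1,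
    7, 5), (1, 2, 4), (1, 1, 2), (1, 5, 1), (2, 4, 5), (2, 8, 1), (2, 7, 2), (2, 2, 7), (2, 1,
    8), (2, 5, 4)]
  | 8 => [
    (0, 1, 8), (0, 2, 7), (0, 4, 5), (0, 5, 4), (0, 7, 2), (0, 8, 1), (1, 7, 8), (1, 5, 7), (1,
    1, 5), (1, 8, 4), (1, 4, 2), (1, 2, 1), (2, 1, 2), (2, 2, 4), (2, 4, 8), (2, 5, 1), (2, 7,
    5), (2, 8, 7)]
  | _ => []

lemma search13_2 : search (9, 9, 9) 6 (list13 2) 4 [] = true := by
  decide

lemma search13_3 : search (9, 9, 9) 6 (list13 3) 4 [] = true := by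
  decide

lemma search13_4 : search (9, 9, 9) 6 (list13 4) 4 [] = true := by
  decide

lemma search13_5 : search (9, 9, 9) 6 (list13 5) 4 [] = true := by
  decide

lemma search13_6 : search (9, 9, 9) 6 (list13 6) 4 [] = true := by
  decide

lemma search13_7 : search (9, 9, 9) 6 (list13 7) 4 [] = true := by
  decide

lemma search13_8 : search (9, 9, 9) 6 (list13 8) 4 [] = true := by
  decide

lemma search13_9 : search (9, 9, 9) 6 (list13 9) 4 [] = true := by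
  decide

lemma search13_10 : search (9, 9, 9) 6 (list13 10) 4 [] = true := by
  decide

lemma search13_11 : search (9, 9, 9) 6 (list13 11) 4 [] = true := by
  decide

lemma search13_12 : search (9, 9, 9) 6 (list13 12) 4 [] = true := by
  decide

lemma search11_2 : search (7, 7, 7) 10 (list11 2) 4 [] = true := by
  decide

lemma search11_6 : search (7, 7, 7) 10 (list11 6) 4 [] = true := by
  decide

lemma search11_10 : search (7, 7, 7) 10 (list11 10) 4 [] = true := by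
  decide

lemma search9a_2 : search (5, 5, 5) 4 (list9 2) 3 [] = true := by
  decide

lemma search9b_2 : search (5, 5, 5) 14 (list9 2) 4 [] = true := by
  decide

lemma search9c_2 : search (6, 6, 6) 4 (list9 2) 4 [] = true := by
  decide

lemma search9d_2 : search (5, 5, 5) 6 (list9 2) 5 [] = true := by
  decide

lemma search9e_2 : search (14, 5, 5) 6 (list9 2) 5 [] = true := by
  decide

lemma search9f_2 : search (5, 14, 5) 6 (list9 2) 5 [] = true := by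
  decide

lemma search9g_2 : search (5, 5, 14) 6 (list9 2) 5 [] = true := by
  decide

lemma search9a_5 : search (5, 5, 5) 4 (list9 5) 3 [] = true := by
  decide

lemma search9b_5 : search (5, 5, 5) 14 (list9 5) 4 [] = true := by
  decide

lemma search9c_5 : search (6, 6, 6) 4 (list9 5) 4 [] = true := by
  decide

lemma search9d_5 : search (5, 5, 5) 6 (list9 5) 5 [] = true := by
  decide

lemma search9e_5 : search (14, 5, 5) 6 (list9 5) 5 [] = true := by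
  decide

lemma search9f_5 : search (5, 14, 5) 6 (list9 5) 5 [] = true := by
  decide

lemma search9g_5 : search (5, 5, 14) 6 (list9 5) 5 [] = true := by
  decide

lemma search9a_8 : search (5, 5, 5) 4 (list9 8) 3 [] = true := by
  decide

lemma search9b_8 : search (5, 5, 5) 14 (list9 8) 4 [] = true := by
  decide

lemma search9c_8 : search (6, 6, 6) 4 (list9 8) 4 [] = true := by
  decide

lemma search9d_8 : search (5, 5, 5) 6 (list9 8) 5 [] = true := by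
  decide

lemma search9e_8 : search (14, 5, 5) 6 (list9 8) 5 [] = true := by
  decide

lemma search9f_8 : search (5, 14, 5) 6 (list9 8) 5 [] = true := by
  decide

lemma search9g_8 : search (5, 5, 14) 6 (list9 8) 5 [] = true := by
  decide

end Pool.Agent.H93.PF
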