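import Mathlib

/-!
# Periodic symplectomorphisms of a symplectic fake projective plane: the data

Let `M` be a closed simply connected symplectic four-manifold with `b₂ = 1` which is not the
complex projective plane, `H` the generator of `H²(M; ℤ)` of positive area; the canonical class
is `K = 3H` (Taubes). Let `g` be a symplectomorphism of order `n > 1`. Every power `g ^ k ≠ 1` has
the same three fixed points `P 0`, `P 1`, `P 2` (Smith theory, and the adjunction formula, which
excludes symplectic spheres). The rotation numbers are those of a linear action on the projective
plane (Edmonds, Ewing; Hambleton, Lee, Madsen), up to common signs at the fixed points, which are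
determined by `canonical` and `euler` below; after a change of the sign of `w` the cotangent space
at `P i` has the weights `w (i + 1) - w i` and `w (i + 2) - w i`.

The structures below record the numerical facts about `g` and about a `g`-invariant
pseudoholomorphic curve in the class `4H`, for a generic `g`-invariant almost complex structure.
Such a curve exists by the theorem of Taubes and the wall crossing formula on the orbifold `M / g`
(Chen): the Dirac operator twisted by `4H` has the index three, so the invariant part of its index
is positive for some lift of `g` to the line bundle `4H`, and `K - 4H = -H` has negative area.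

Weights: `g` acts on functions by `f ↦ f ∘ g⁻¹`; the weight of an eigenfunction with the eigenvalue
`exp (2 π i a / n)` is `a`, and similarly for sections of line bundles on which `g` acts.
-/

namespace Pool.Agent.H93.PF

open Finset

/-- The least orders of vanishing of the two coordinates along a branch at the fixed point `P i`.
The coordinates at `P i` have the weights `w (i + 1) - w i` and `w (i + 2) - w i`. A branch with a
stabilizer of order `m` is parametrised by `z ↦ (z ^ a (…), z ^ b (…))` with power series in
`z ^ m` in the brackets, and `a`, `b` are determined modulo `m` by the weights. Here `u` is, modulo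
`m`, the inverse of the weight of the parameter `z`. -/
def expo {n : ℕ} (w : Fin 3 → ZMod n) (i : Fin 3) (m : ℕ) (u : ZMod n) : ℕ × ℕ :=
  (((w (i + 1) - w i) * u).val % m, ((w (i + 2) - w i) * u).val % m)

/-- The contribution `(a - 1) (b - 1)` of a branch on which the coordinates vanish to the orders
`a`, `b` to twice the `δ`-invariant. -/
def selfTerm (x : ℕ × ℕ) : ℕ := (x.1 - 1) * (x.2 - 1)

/-- The lower bound `min (a b') (a' b)` for the intersection number of two branches at the same
point, on which the coordinates vanish to the orders `a`, `b` and `a'`, `b'`. -/
def crossTerm (x y : ℕ × ℕ) : ℕ := min (x.1 * y.2) (y.1 * x.2)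

/-- The numerical data of an irreducible pseudoholomorphic curve `C` in the class `d H` which is
invariant under `g`, for a generic `g`-invariant almost complex structure; `g` acts on the
cotangent space at the fixed point `P i` with the weights `w (i + 1) - w i` and `w (i + 2) - w i`,
and on the fibre of the line bundle `H` at `P i` with the weight `h i`. -/
structure InvCurve (n : ℕ) (w h : Fin 3 → ZMod n) (d : ℕ) where
  /-- The genus of the normalization of `C`. -/
  genus : ℕ
  /-- The genus of the quotient of the normalization by `g`. -/
  quotGenus : ℕ
  /-- The sum of the `δ`-invariants of the singular points of `C`. -/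
  delta : ℕ
  /-- The number of the orbits with non-trivial stabilizers on the normalization. -/
  num : ℕ
  /-- The fixed point of `M` below such an orbit. -/
  pt : Fin num → Fin 3
  /-- The orders of the stabilizers. -/
  stab : Fin num → ℕ
  stab_dvd : ∀ s, stab s ∣ n
  one_lt_stab : ∀ s, 1 < stab s
  /-- The inverse of the weight of the local parameter, modulo the order of the stabilizer. -/
  u : Fin num → ZMod n
  coprime : ∀ s, (u s).val.Coprime (stab s)
  /-- The orders of vanishing of the two coordinates along a branch of the orbit. (If the branch
  is contained in a coordinate axis, the order in question is infinite and may be replaced by any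
  positive integer in its residue class.) -/
  ord : Fin num → ℕ × ℕ
  ord_pos : ∀ s, 0 < (ord s).1 ∧ 0 < (ord s).2
  ord_fst : ∀ s, (ord s).1 % stab s = (expo w (pt s) (stab s) (u s)).1
  ord_snd : ∀ s, (ord s).2 % stab s = (expo w (pt s) (stab s) (u s)).2
  /-- The product of the local monodromies of the cyclic covering is trivial. -/
  rotation : ∑ s, ((n / stab s : ℕ) : ZMod n) * u s = 0
  /-- The degree formula for the line bundle `H` restricted to the normalization of `C`, which has
  the degree `H · C = d`. -/
  degree_eq : ∑ s, ((n / stab s : ℕ) : ZMod n) * (h (pt s) * u s) = -d
  /-- The adjunction formula, `K · C + C · C = 3 d + d ^ 2`. -/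
  adjunction : d ^ 2 + 3 * d + 2 = 2 * genus + 2 * delta
  /-- The Riemann-Hurwitz formula. -/
  hurwitz : 2 * genus + 2 * n = 2 + 2 * n * quotGenus + ∑ s, (n - n / stab s)
  /-- The index of the curve `C / g` in the orbifold `M / g` is not negative. -/
  index : 3 * d + ∑ s, n / stab s * ((expo w (pt s) (stab s) (u s)).1 +
    (expo w (pt s) (stab s) (u s)).2) + n ≤ n * (quotGenus + num)
  /-- The branches with non-trivial stabilizers give a lower bound for `2 δ`; an orbit consists of
  `n / stab s` branches. -/
  delta_ge : ∑ s, n / stab s * (selfTerm (ord s) + (n / stab s - 1) * crossTerm (ord s) (ord s)) +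
    ∑ s, ∑ s' with s' ≠ s ∧ pt s' = pt s, n / stab s * (n / stab s') *
      crossTerm (ord s) (ord s') ≤ 2 * delta

/-- The numerical data of a symplectomorphism `g` of order `n` of a symplectic fake projective
plane and of a `g`-invariant pseudoholomorphic curve `∑ mult r • C r` in the class `4H`, for a
generic `g`-invariant almost complex structure. -/
structure FakePlaneAction (n : ℕ) where
  /-- `g` acts on the cotangent space at the fixed point `P i` with the weights
  `w (i + 1) - w i` and `w (i + 2) - w i`. -/
  w : Fin 3 → ZMod n
  /-- The fixed points of the powers of `g` are isolated. -/
  isUnit_sub : ∀ i j, i ≠ j → IsUnit (w i - w j)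
  /-- The weight of `g` on the fibre at `P i` of the line bundle `H`. -/
  h : Fin 3 → ZMod n
  /-- The character by which the canonical bundle differs from the third power of `H`. -/
  char : ZMod n
  /-- The canonical class is `3H`. -/
  canonical : ∀ i, (w (i + 1) - w i) + (w (i + 2) - w i) = 3 * h i + char
  /-- The equivariant Euler class of the tangent space at `P i`, and the class `H · H` of a point.
  -/
  euler : ∀ i, (w (i + 1) - w i) * (w (i + 2) - w i) = (h i - h (i + 1)) * (h i - h (i + 2))
  /-- The number of the components of the curve. -/
  comp : ℕ
  /-- The degrees of the components: `C r` has the class `deg r • H`. -/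
  deg : Fin comp → ℕ
  deg_pos : ∀ r, 0 < deg r
  /-- The multiplicities of the components. -/
  mult : Fin comp → ℕ
  mult_pos : ∀ r, 0 < mult r
  /-- The class of the curve is `4H`. -/
  degree : ∑ r, mult r * deg r = 4
  /-- `g` permutes the components. -/
  perm : Equiv.Perm (Fin comp)
  perm_pow : perm ^ n = 1
  deg_perm : ∀ r, deg (perm r) = deg r
  mult_perm : ∀ r, mult (perm r) = mult r
  /-- The invariant components. -/
  curve : ∀ r, perm r = r → InvCurve n w h (deg r)

end Pool.Agent.H93.PF
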