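import Pool.Agent.H93.PF.Orders

/-!
# The numerical conditions can be satisfied for the orders five, seven and eleven
-/

namespace Pool.Agent.H93.PF

open Finset

/-- An action with one irreducible curve of degree four. -/
def ofCurve {n : ℕ} (w : Fin 3 → ZMod n) (hw : ∀ i j, i ≠ j → IsUnit (w i - w j))
    (C : InvCurve n w (fun i => -w i) 4) : FakePlaneAction n where
  w := w
  isUnit_sub := hw
  h := fun i => -w i
  char := w 0 + w 1 + w 2
  canonical := by
    intro i
    fin_cases i
    · simp
      ring
    · simp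
      ring
    · simp
      ring
  euler := fun i => by ring
  comp := 1
  deg := fun _ => 4
  deg_pos := fun _ => by norm_num
  mult := fun _ => 1
  mult_pos := fun _ => by norm_num
  degree := by decide
  perm := 1
  perm_pow := one_pow n
  deg_perm := fun _ => rfl
  mult_perm := fun _ => rfl
  curve := fun _ _ => C

lemma isUnit_of {n : ℕ} [Fact n.Prime] {w : Fin 3 → ZMod n} (h : ∀ i j, i ≠ j → w i - w j ≠ 0) :
    ∀ i j, i ≠ j → IsUnit (w i - w j) := fun i j hij => isUnit_iff_ne_zero.2 (h i j hij)

/-- A curve for the order five. -/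
def curve5 : InvCurve 5 ![0, 1, 2] (fun i => -(![0, 1, 2] : Fin 3 → ZMod 5) i) 4 where
  genus := 15
  quotGenus := 3
  delta := 0
  num := 2
  pt := ![0, 1]
  stab := fun _ => 5
  stab_dvd := by decide
  one_lt_stab := by decide
  u := ![1, 4]
  coprime := by decide
  ord := ![(1, 2), (4, 1)]
  ord_pos := by decide
  ord_fst := by decide
  ord_snd := by decide
  rotation := by decide
  degree_eq := by decide
  adjunction := by decide
  hurwitz := by decide
  index := by decide
  delta_ge := by decide

/-- A curve for the order seven. -/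
def curve7 : InvCurve 7 ![0, 1, 3] (fun i => -(![0, 1, 3] : Fin 3 → ZMod 7) i) 4 where
  genus := 14
  quotGenus := 2
  delta := 1
  num := 2
  pt := ![0, 2]
  stab := fun _ => 7
  stab_dvd := by decide
  one_lt_stab := by decide
  u := ![1, 6]
  coprime := by decide
  ord := ![(1, 3), (3, 2)]
  ord_pos := by decide
  ord_fst := by decide
  ord_snd := by decide
  rotation := by decide
  degree_eq := by decide
  adjunction := by decide
  hurwitz := by decide
  index := by decide
  delta_ge := by decide

/-- A curve for the order eleven. -/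
def curve11 : InvCurve 11 ![0, 1, 3] (fun i => -(![0, 1, 3] : Fin 3 → ZMod 11) i) 4 where
  genus := 10
  quotGenus := 0
  delta := 5
  num := 4
  pt := ![0, 0, 0, 2]
  stab := fun _ => 11
  stab_dvd := by decide
  one_lt_stab := by decide
  u := ![1, 1, 4, 5]
  coprime := by decide
  ord := ![(1, 3), (1, 3), (4, 1), (7, 1)]
  ord_pos := by decide
  ord_fst := by decide
  ord_snd := by decide
  rotation := by decide
  degree_eq := by decide
  adjunction := by decide
  hurwitz := by decide
  index := by decide
  delta_ge := by decide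

lemma nonempty_five : Nonempty (FakePlaneAction 5) := by
  have h : ∀ i j : Fin 3, i ≠ j →
      (![0, 1, 2] : Fin 3 → ZMod 5) i - (![0, 1, 2] : Fin 3 → ZMod 5) j ≠ 0 := by decide
  have : Fact (Nat.Prime 5) := ⟨by norm_num⟩
  exact ⟨ofCurve _ (isUnit_of h) curve5⟩

lemma nonempty_seven : Nonempty (FakePlaneAction 7) := by
  have h : ∀ i j : Fin 3, i ≠ j →
      (![0, 1, 3] : Fin 3 → ZMod 7) i - (![0, 1, 3] : Fin 3 → ZMod 7) j ≠ 0 := by decide
  have : Fact (Nat.Prime 7) := ⟨by norm_num⟩
  exact ⟨ofCurve _ (isUnit_of h) curve7⟩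

lemma nonempty_eleven : Nonempty (FakePlaneAction 11) := by
  have h : ∀ i j : Fin 3, i ≠ j →
      (![0, 1, 3] : Fin 3 → ZMod 11) i - (![0, 1, 3] : Fin 3 → ZMod 11) j ≠ 0 := by decide
  have : Fact (Nat.Prime 11) := ⟨by norm_num⟩
  exact ⟨ofCurve _ (isUnit_of h) curve11⟩

end Pool.Agent.H93.PF
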