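import Pool.Agent.H93.PF.TwoCore

/-!
# The order fifteen
-/

namespace Pool.Agent.H93.PF

open Finset

/-- The branches with exponents at most eleven for the weights `0, 1, t` modulo fifteen. -/
def list15 : ℕ → List (ℕ × ℕ × ℕ)
  | 2 => [
    (0, 1, 2), (0, 2, 4), (0, 4, 8), (0, 8, 1), (0, 11, 7), (1, 4, 11), (1, 7, 8), (1, 8, 7),
    (1, 11, 4), (2, 7, 11), (2, 1, 8), (2, 8, 4), (2, 4, 2), (2, 2, 1)]
  | 8 => [
    (0, 1, 8), (0, 2, 1), (0, 4, 2), (0, 7, 11), (0, 8, 4), (1, 4, 8), (1, 11, 7), (1, 2, 4),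
    (1, 1, 2), (1, 8, 1), (2, 7, 8), (2, 4, 11), (2, 11, 4), (2, 8, 7)]
  | 14 => [
    (0, 4, 11), (0, 7, 8), (0, 8, 7), (0, 11, 4), (1, 7, 11), (1, 1, 8), (1, 8, 4), (1, 4, 2),
    (1, 2, 1), (2, 1, 2), (2, 2, 4), (2, 4, 8), (2, 8, 1), (2, 11, 7)]
  | _ => []

lemma search15_2 : search (11, 11, 11) 2 (list15 2) 4 [] = true := by
  decide

lemma search15_8 : search (11, 11, 11) 2 (list15 8) 4 [] = true := by
  decide

lemma search15_14 : search (11, 11, 11) 2 (list15 14) 4 [] = true := by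
  decide

set_option maxRecDepth 100000 in
lemma mem15 : ∀ (t : ZMod 15) (i : Fin 3) (u : ZMod 15),
    ((t = 2 ∨ t = 8 ∨ t = 14) ∧ u.val.Coprime 15 ∧
      (expo ![0, 1, t] i 15 u).1 ≤ 11 ∧ (expo ![0, 1, t] i 15 u).2 ≤ 11) →
      triple ![0, 1, t] i u ∈ list15 t.val := by
  decide

lemma search15 (t : ZMod 15) (h : t = 2 ∨ t = 8 ∨ t = 14) :
    search (11, 11, 11) 2 (list15 t.val) 4 [] = true := by
  rcases h with rfl | rfl | rfl
  · exact search15_2
  · exact search15_8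
  · exact search15_14

lemma ratio_fifteen : ∀ t : ZMod 15, (t.val.Coprime 15 ∧ (t - 1).val.Coprime 15) →
    t = 2 ∨ t = 8 ∨ t = 14 := by
  decide

variable {w h : Fin 3 → ZMod 15} {d : ℕ}

lemma stab_cases15 (C : InvCurve 15 w h d) (s : Fin C.num) :
    C.stab s = 3 ∨ C.stab s = 5 ∨ C.stab s = 15 := by
  have h1 := C.stab_dvd s
  have h2 := C.one_lt_stab s
  have h3 : C.stab s ≤ 15 := Nat.le_of_dvd (by norm_num) h1
  generalize C.stab s = m at h1 h2 h3
  interval_cases m <;> omega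

/-- There is no invariant curve if the weights of `H` are the negatives of the weights `w`. -/
lemma not_fifteen (hw : ∀ i j, i ≠ j → IsUnit (w i - w j)) {e : ZMod 15}
    (he : ∀ i, h i = -w i + e) (C : InvCurve 15 w h d) (hd : 0 < d) (hd4 : d ≤ 4) : False := by
  have h1 := four_le C he hd
  have h2 := C.hurwitz
  have h4 := C.adjunction
  have hpos : ∀ s, 1 ≤ crossTerm (expo w (C.pt s) (C.stab s) (C.u s))
      (expo w (C.pt s) (C.stab s) (C.u s)) := by
    intro s
    have a1 : 0 < (expo w (C.pt s) (C.stab s) (C.u s)).1 :=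
      mod_pos (C.stab_dvd s) (C.one_lt_stab s) (hw _ _ (succ_ne _)) (C.coprime s)
    have a2 : 0 < (expo w (C.pt s) (C.stab s) (C.u s)).2 :=
      mod_pos (C.stab_dvd s) (C.one_lt_stab s) (hw _ _ (succ_succ_ne _)) (C.coprime s)
    exact lt_min (Nat.mul_pos a1 a2) (Nat.mul_pos a1 a2)
  have hG : ∀ s, 14 + (if C.stab s = 15 then 0 else 4) ≤ (15 - 15 / C.stab s) + 15 / C.stab s *
      (selfTerm (expo w (C.pt s) (C.stab s) (C.u s)) +
      (15 / C.stab s - 1) * crossTerm (expo w (C.pt s) (C.stab s) (C.u s))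
        (expo w (C.pt s) (C.stab s) (C.u s))) := by
    intro s
    have h5 := hpos s
    rcases stab_cases15 C s with hs | hs | hs <;> rw [hs] at h5 ⊢ <;> norm_num <;> omega
  have h7 : ∀ s0, 14 * C.num + (if C.stab s0 = 15 then 0 else 4) ≤
      ∑ s, (15 - 15 / C.stab s) + 2 * C.delta := by
    intro s0
    refine le_trans ?_ (Nat.add_le_add_left (le_trans (Nat.le_add_right _ _) (delta_ge' C)) _)
    rw [← sum_add_distrib]
    refine le_trans ?_ (sum_le_sum fun s _ => hG s)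
    rw [sum_add_distrib]
    refine add_le_add (by simp [mul_comm]) ?_
    exact single_le_sum (f := fun s => if C.stab s = 15 then 0 else 4)
      (fun _ _ => Nat.zero_le _) (mem_univ s0)
  have hnum : 0 < C.num ∨ C.num = 0 := by omega
  have hd' : d = 1 ∨ d = 2 ∨ d = 3 ∨ d = 4 := by omega
  have h8 : 14 * C.num ≤ ∑ s, (15 - 15 / C.stab s) + 2 * C.delta := by
    rcases hnum with h0 | h0
    · exact le_trans (Nat.le_add_right _ _) (h7 ⟨0, h0⟩)
    · have h9 : 14 * C.num = 0 := by rw [h0]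
      rw [h9]
      exact Nat.zero_le _
  have key : C.quotGenus = 0 ∧ C.num = 4 ∧ d = 4 := by
    rcases hd' with rfl | rfl | rfl | rfl <;> norm_num at h2 h4 ⊢ <;> omega
  obtain ⟨k1, k2, rfl⟩ := key
  have hst : ∀ s, C.stab s = 15 := by
    intro s
    by_contra hs
    have h9 := h7 s
    have h10 : 14 * C.num = 56 := by rw [k2]
    rw [if_neg hs, h10] at h9
    norm_num at h4
    rw [k1] at h2
    omega
  have h5 : ∑ s, (15 - 15 / C.stab s) = 14 * C.num := by
    rw [sum_congr rfl fun s _ => by rw [hst s]]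
    simp [mul_comm]
  have h10 : 14 * C.num = 56 := by rw [k2]
  rw [h5, k1, h10] at h2
  have k3 := coordSum_eq C he hd (by omega)
  have e0 := k3 0
  have e1 := k3 1
  have e2 := k3 2
  obtain ⟨t, ht, ht0, ht1⟩ := exists_ratio hw
  have ht' := ratio_fifteen t ⟨coprime_of_isUnit ht0, coprime_of_isUnit ht1⟩
  exact no_curve (m := 11) (search15 t ht') ⟨le_rfl, le_rfl, le_rfl⟩ hw ht
    (fun i u hu h1 h2 => mem15 t i u ⟨ht', hu, h1, h2⟩) C hst k2 (by dsimp only; omega)
    (by dsimp only; omega) (by dsimp only; omega) (by norm_num at h4; omega)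

end Pool.Agent.H93.PF
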