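import Pool.Agent.H93.PF.Main

/-!
# The possible orders
-/

namespace Pool.Agent.H93.PF

open Finset

/-! ### The primes eleven and thirteen -/

section
variable {p : ℕ} [Fact p.Prime] {w h : Fin 3 → ZMod p} {d : ℕ}

lemma stab_prime (C : InvCurve p w h d) (s : Fin C.num) : p / C.stab s = 1 := by
  rw [stab_eq C s, Nat.div_self (Fact.out : p.Prime).pos]

/-- Two branches at the same point make the curve singular. -/
lemma delta_pos (hw : ∀ i j, i ≠ j → IsUnit (w i - w j)) (C : InvCurve p w h d)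
    (hn : 4 ≤ C.num) : 0 < C.delta := by
  obtain ⟨s, s', hne, hpt⟩ := Fintype.exists_ne_map_eq_of_card_lt C.pt
    (by rw [Fintype.card_fin, Fintype.card_fin]; omega)
  have h1 := delta_ge' C
  have hpos : ∀ s, 0 < (expo w (C.pt s) (C.stab s) (C.u s)).1 ∧
      0 < (expo w (C.pt s) (C.stab s) (C.u s)).2 := fun s =>
    ⟨mod_pos (C.stab_dvd s) (C.one_lt_stab s) (hw _ _ (succ_ne _)) (C.coprime s),
      mod_pos (C.stab_dvd s) (C.one_lt_stab s) (hw _ _ (succ_succ_ne _)) (C.coprime s)⟩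
  set X : Fin C.num → Fin C.num → ℕ := fun s s' => p / C.stab s * (p / C.stab s') *
    crossTerm (expo w (C.pt s) (C.stab s) (C.u s)) (expo w (C.pt s') (C.stab s') (C.u s')) with hX
  have h2 : 0 < X s s' := by
    simp only [hX]
    rw [stab_prime C s, stab_prime C s', one_mul, one_mul]
    exact lt_min (Nat.mul_pos (hpos s).1 (hpos s').2) (Nat.mul_pos (hpos s').1 (hpos s).2)
  have h3 : X s s' ≤ ∑ s'' with s'' ≠ s ∧ C.pt s'' = C.pt s, X s s'' :=
    single_le_sum (f := fun s'' => X s s'') (fun _ _ => Nat.zero_le _)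
      (mem_filter.2 ⟨mem_univ _, hne.symm, hpt.symm⟩)
  have h4 : (∑ s'' with s'' ≠ s ∧ C.pt s'' = C.pt s, X s s'') ≤
      ∑ s, ∑ s' with s' ≠ s ∧ C.pt s' = C.pt s, X s s' :=
    single_le_sum (f := fun s => ∑ s' with s' ≠ s ∧ C.pt s' = C.pt s, X s s')
      (fun _ _ => Nat.zero_le _) (mem_univ s)
  have h5 : (∑ s, ∑ s' with s' ≠ s ∧ C.pt s' = C.pt s, X s s') ≤ 2 * C.delta :=
    le_trans (Nat.le_add_left _ _) h1
  omega

/-- The numbers for the primes eleven and thirteen. -/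
lemma numbers (hw : ∀ i j, i ≠ j → IsUnit (w i - w j)) (C : InvCurve p w h d) {e : ZMod p}
    (he : ∀ i, h i = -w i + e) (hd : 0 < d) (hd4 : d ≤ 4) (hp : p = 11 ∨ p = 13) :
    C.num = 4 ∧ (∀ j, coordSum C j = p - 4) ∧ 2 * C.delta = 32 - 2 * p := by
  have h1 := four_le C he hd
  have h2 := C.hurwitz
  have h5 : ∑ s, (p - p / C.stab s) = C.num * (p - 1) := by
    rw [sum_congr rfl fun s _ => by rw [stab_prime C s]]
    simp
  rw [h5] at h2
  have h6 := C.adjunction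
  have h4 : 4 ≤ C.num → 0 < C.delta := delta_pos hw C
  have hd' : d = 1 ∨ d = 2 ∨ d = 3 ∨ d = 4 := by omega
  have key : C.quotGenus = 0 ∧ C.num = 4 ∧ d = 4 ∧ 2 * C.delta = 32 - 2 * p := by
    clear h5
    rcases Nat.eq_zero_or_pos C.quotGenus with hq | hq <;>
      rcases hp with rfl | rfl <;> rcases hd' with rfl | rfl | rfl | rfl <;>
      norm_num at h2 h6 ⊢ <;> omega
  obtain ⟨k1, k2, rfl, k4⟩ := key
  refine ⟨k2, fun j => ?_, k4⟩
  have := coordSum_eq C he hd (by omega) j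
  omega

/-- An element whose value is prime to `p` is not zero. -/
lemma ne_zero_of_coprime {u : ZMod p} (hu : u.val.Coprime p) : u ≠ 0 := by
  rintro rfl
  rw [ZMod.val_zero, Nat.coprime_zero_left] at hu
  exact (Fact.out : p.Prime).one_lt.ne' hu

end

lemma not_thirteen {w h : Fin 3 → ZMod 13} {d : ℕ} (hw : ∀ i j, i ≠ j → IsUnit (w i - w j))
    {e : ZMod 13} (he : ∀ i, h i = -w i + e) (C : InvCurve 13 w h d) (hd : 0 < d)
    (hd4 : d ≤ 4) : False := by
  have : Fact (Nat.Prime 13) := ⟨by norm_num⟩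
  obtain ⟨k1, k2, k3⟩ := numbers hw C he hd hd4 (Or.inr rfl)
  obtain ⟨t, ht, ht0, ht1⟩ := exists_ratio hw
  have t0 : t ≠ 0 := ht0.ne_zero
  have t1 : t ≠ 1 := fun h1 => ht1.ne_zero (by rw [h1, sub_self])
  exact no_curve (m := 9) (search13 _ t0 t1) ⟨le_rfl, le_rfl, le_rfl⟩ hw ht
    (fun i u hu h1 h2 => mem13 _ i u ⟨t0, t1, ne_zero_of_coprime hu, h1, h2⟩) C (stab_eq C) k1
    (k2 0) (k2 1) (k2 2) (by omega)

lemma not_eleven {w h : Fin 3 → ZMod 11} {d : ℕ} (hw : ∀ i j, i ≠ j → IsUnit (w i - w j))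
    {e : ZMod 11} (he : ∀ i, h i = -w i + e) (C : InvCurve 11 w h d) (hd : 0 < d)
    (hd4 : d ≤ 4) (i : Fin 3) : (w (i + 1) - w i) + (w (i + 2) - w i) ≠ 0 := by
  intro hi
  have : Fact (Nat.Prime 11) := ⟨by norm_num⟩
  obtain ⟨k1, k2, k3⟩ := numbers hw C he hd hd4 (Or.inl rfl)
  obtain ⟨t, ht, ht0, ht1⟩ := exists_ratio hw
  have n01 : w 1 - w 0 ≠ 0 := (hw 1 0 (by decide)).ne_zero
  have e11 : (11 : ZMod 11) = 0 := by exact_mod_cast ZMod.natCast_self 11
  have ht' : t = 2 ∨ t = 6 ∨ t = 10 := by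
    fin_cases i
    · right; right
      simp at hi
      apply mul_right_cancel₀ n01
      linear_combination hi - (w 1 - w 0) * e11 - ht
    · left
      simp at hi
      apply mul_right_cancel₀ n01
      linear_combination hi - ht
    · right; left
      simp at hi
      apply mul_right_cancel₀ n01
      linear_combination 5 * hi + (w 2 - w 1) * e11 - ht
  exact no_curve (m := 7) (search11 _ ht') ⟨le_rfl, le_rfl, le_rfl⟩ hw ht
    (fun i u hu h1 h2 => mem11 _ i u ⟨ht', ne_zero_of_coprime hu, h1, h2⟩) C (stab_eq C) k1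
    (k2 0) (k2 1) (k2 2) (by omega)

end Pool.Agent.H93.PF
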