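import Pool.Agent.H93.PF.Bound
import Pool.Agent.H93.PF.Check

/-!
# The finite search is complete
-/

namespace Pool.Agent.H93.PF

open Finset

/-! ### Lists -/

lemma eSum_append (j : ℕ) (l l' : List (ℕ × ℕ × ℕ)) :
    eSum j (l ++ l') = eSum j l + eSum j l' := by
  induction l with
  | nil => simp [eSum]
  | cons x l ih => rw [List.cons_append, eSum, eSum, ih, add_assoc]

lemma cost_le_append (l l' : List (ℕ × ℕ × ℕ)) : cost l' ≤ cost (l ++ l') := by
  induction l with
  | nil => exact le_rfl
  | cons x l ih =>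
    rw [List.cons_append, cost]
    omega

lemma beq_of_eq {a b : ℕ} (h : a = b) : Nat.beq a b = true := by
  subst h
  exact Nat.beq_refl a

/-- The search finds every list. -/
lemma search_sound {N : ℕ × ℕ × ℕ} {B : ℕ} {L : List (ℕ × ℕ × ℕ)} (c : ℕ) :
    ∀ l more : List (ℕ × ℕ × ℕ), search N B L c l = true → more.length = c →
      (∀ x ∈ more, x ∈ L) → eSum 0 (more.reverse ++ l) = N.1 →
      eSum 1 (more.reverse ++ l) = N.2.1 → eSum 2 (more.reverse ++ l) = N.2.2 →
      cost (more.reverse ++ l) ≤ B → False := by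
  induction c with
  | zero =>
    intro l more hs hlen _ h0 h1 h2 hB
    rw [List.length_eq_zero_iff] at hlen
    subst hlen
    simp only [List.reverse_nil, List.nil_append] at h0 h1 h2 hB
    have hok : okEq N B l = true := by
      unfold okEq
      simp only [Bool.and_eq_true]
      exact ⟨⟨⟨beq_of_eq h0, beq_of_eq h1⟩, beq_of_eq h2⟩, Nat.ble_eq_true_of_le hB⟩
    rw [search, hok] at hs
    exact absurd hs (by decide)
  | succ c ih =>
    intro l more hs hlen hL h0 h1 h2 hB
    obtain ⟨x, more, rfl⟩ : ∃ x m, more = x :: m := by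
      cases more with
      | nil => simp at hlen
      | cons x m => exact ⟨x, m, rfl⟩
    have hrev : (x :: more).reverse ++ l = more.reverse ++ (x :: l) := by
      rw [List.reverse_cons, List.append_assoc, List.singleton_append]
    rw [hrev] at h0 h1 h2 hB
    rw [search] at hs
    have hx := List.all_eq_true.1 hs x (hL x List.mem_cons_self)
    have hok : okLe N B (x :: l) = true := by
      rw [eSum_append] at h0 h1 h2
      have h3 := cost_le_append more.reverse (x :: l)
      unfold okLe
      simp only [Bool.and_eq_true]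
      refine ⟨⟨⟨Nat.ble_eq_true_of_le ?_, Nat.ble_eq_true_of_le ?_⟩, Nat.ble_eq_true_of_le ?_⟩,
        Nat.ble_eq_true_of_le ?_⟩ <;> omega
    rw [hok, Bool.not_true, Bool.false_or] at hx
    exact ih (x :: l) more hx (by simpa using hlen)
      (fun y hy => hL y (List.mem_cons_of_mem _ hy)) h0 h1 h2 hB

lemma eSum_ofFn (j : ℕ) {c : ℕ} (x : Fin c → ℕ × ℕ × ℕ) :
    eSum j (List.ofFn x) = ∑ s, coordE j (x s) := by
  induction c with
  | zero => simp [eSum]
  | succ c ih => rw [List.ofFn_succ, eSum, ih, Fin.sum_univ_succ]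

lemma cSum_ofFn (y : ℕ × ℕ × ℕ) {c : ℕ} (x : Fin c → ℕ × ℕ × ℕ) :
    cSum y (List.ofFn x) = ∑ s, crossT y (x s) := by
  induction c with
  | zero => simp [cSum]
  | succ c ih => rw [List.ofFn_succ, cSum, ih, Fin.sum_univ_succ]

lemma cost_ofFn {c : ℕ} (x : Fin c → ℕ × ℕ × ℕ)
    (hx : ∀ s s', crossT (x s) (x s') = crossT (x s') (x s)) :
    cost (List.ofFn x) = ∑ s, selfT (x s) +
      ∑ s, ∑ s', (if s' = s then 0 else crossT (x s) (x s')) := by
  induction c with
  | zero => simp [cost]
  | succ c ih =>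
    rw [List.ofFn_succ, cost, cSum_ofFn, ih (fun s => x s.succ) fun s s' => hx _ _,
      Fin.sum_univ_succ, Fin.sum_univ_succ]
    simp only [Fin.sum_univ_succ, Fin.succ_inj, if_true, Fin.succ_ne_zero, if_false,
      (Fin.succ_ne_zero _).symm, sum_add_distrib]
    have : ∑ s : Fin c, crossT (x s.succ) (x 0) = ∑ s : Fin c, crossT (x 0) (x s.succ) :=
      sum_congr rfl fun s _ => hx _ _
    rw [this]
    ring

/-! ### Branches as triples -/

variable {n : ℕ}

/-- A branch as a triple of natural numbers. -/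
def triple (w : Fin 3 → ZMod n) (i : Fin 3) (u : ZMod n) : ℕ × ℕ × ℕ :=
  (i.val, (expo w i n u).1, (expo w i n u).2)

lemma coordE_triple (w : Fin 3 → ZMod n) (i j : Fin 3) (u : ZMod n) :
    coordE j.val (triple w i u) = ((w j - w i) * u).val % n := by
  fin_cases i <;> fin_cases j <;> simp [coordE, triple, expo]

lemma crossT_triple (w : Fin 3 → ZMod n) (i i' : Fin 3) (u u' : ZMod n) :
    crossT (triple w i u) (triple w i' u') =
      if i' = i then crossTerm (expo w i n u) (expo w i' n u') else 0 := by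
  unfold crossT triple crossTerm
  by_cases h : i' = i
  · subst h
    simp only [beq_self_eq_true, cond_true, if_true]
    by_cases h2 : (expo w i' n u).1 * (expo w i' n u').2 ≤
        (expo w i' n u').1 * (expo w i' n u).2
    · rw [Nat.ble_eq_true_of_le h2, cond_true, min_eq_left h2]
    · have h3 : Nat.ble ((expo w i' n u).1 * (expo w i' n u').2)
          ((expo w i' n u').1 * (expo w i' n u).2) = false := by
        rw [← Bool.not_eq_true]
        intro h4
        exact h2 (Nat.le_of_ble_eq_true h4)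
      rw [h3, cond_false, min_eq_right (by omega)]
  · have h2 : ((i : ℕ) == (i' : ℕ)) = false := by
      rw [beq_eq_false_iff_ne]
      intro h3
      exact h (Fin.ext h3.symm)
    rw [h2, cond_false, if_neg h]

lemma cross_comm (x y : ℕ × ℕ) : crossTerm x y = crossTerm y x := min_comm _ _

/-- The search excludes the data. -/
lemma not_of_search {N : ℕ × ℕ × ℕ} {B m c : ℕ} {L : List (ℕ × ℕ × ℕ)}
    (hs : search N B L c [] = true) (hm : N.1 ≤ m ∧ N.2.1 ≤ m ∧ N.2.2 ≤ m)
    {w : Fin 3 → ZMod n}
    (hL : ∀ i u, u.val.Coprime n → (expo w i n u).1 ≤ m → (expo w i n u).2 ≤ m →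
      triple w i u ∈ L)
    (pt : Fin c → Fin 3) (u : Fin c → ZMod n) (hu : ∀ s, (u s).val.Coprime n)
    (hN0 : ∑ s, ((w 0 - w (pt s)) * u s).val % n = N.1)
    (hN1 : ∑ s, ((w 1 - w (pt s)) * u s).val % n = N.2.1)
    (hN2 : ∑ s, ((w 2 - w (pt s)) * u s).val % n = N.2.2)
    (hB : ∑ s, selfTerm (expo w (pt s) n (u s)) +
      ∑ s, ∑ s' with s' ≠ s ∧ pt s' = pt s,
        crossTerm (expo w (pt s) n (u s)) (expo w (pt s') n (u s')) ≤ B) : False := by
  set x : Fin c → ℕ × ℕ × ℕ := fun s => triple w (pt s) (u s) with hx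
  have hE : ∀ j : Fin 3, eSum j.val (List.ofFn x) = ∑ s, ((w j - w (pt s)) * u s).val % n := by
    intro j
    rw [eSum_ofFn]
    exact sum_congr rfl fun s _ => coordE_triple _ _ _ _
  have hmem : ∀ s, x s ∈ L := by
    intro s
    have h1 : ∀ j, ((w j - w (pt s)) * u s).val % n ≤ m := by
      intro j
      refine le_trans (single_le_sum (f := fun s => ((w j - w (pt s)) * u s).val % n)
        (fun _ _ => Nat.zero_le _) (mem_univ s)) ?_
      fin_cases j
      · exact hN0.le.trans hm.1
      · exact hN1.le.trans hm.2.1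
      · exact hN2.le.trans hm.2.2
    exact hL _ _ (hu s) (h1 _) (h1 _)
  have hsymm : ∀ s s' : Fin c, crossT (x s) (x s') = crossT (x s') (x s) := by
    intro s s'
    simp only [hx, crossT_triple]
    by_cases h : pt s' = pt s
    · rw [if_pos h, if_pos h.symm, cross_comm]
    · rw [if_neg h, if_neg fun h' => h h'.symm]
  have hcost : cost (List.ofFn x) ≤ B := by
    refine le_trans (le_of_eq ?_) hB
    rw [cost_ofFn x hsymm]
    refine congrArg₂ (· + ·) rfl (sum_congr rfl fun s _ => ?_)
    rw [sum_filter]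
    refine sum_congr rfl fun s' _ => ?_
    by_cases h : s' = s
    · rw [if_pos h, if_neg fun h' => h'.1 h]
    · rw [if_neg h]
      simp only [hx, crossT_triple]
      by_cases h' : pt s' = pt s
      · rw [if_pos h', if_pos ⟨h, h'⟩]
      · rw [if_neg h', if_neg fun h'' => h' h''.2]
  refine search_sound c [] (List.ofFn x).reverse hs (by simp) ?_ ?_ ?_ ?_ ?_
  · intro y hy
    rw [List.mem_reverse, List.mem_ofFn] at hy
    obtain ⟨s, rfl⟩ := hy
    exact hmem s
  · rw [List.reverse_reverse, List.append_nil]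
    exact (hE 0).trans hN0
  · rw [List.reverse_reverse, List.append_nil]
    exact (hE 1).trans hN1
  · rw [List.reverse_reverse, List.append_nil]
    exact (hE 2).trans hN2
  · rw [List.reverse_reverse, List.append_nil]
    exact hcost

end Pool.Agent.H93.PF
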