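import Pool.Agent.H93.PF.Tangent

/-!
# Groups of odd order acting freely on the complex plane without the origin are cyclic
-/

namespace Pool.Agent.H93.PF

open Module Subgroup

section
variable {H : Type*} [Group H] [Finite H] (ρ : H →* Module.End ℂ (Fin 2 → ℂ))

/-- A common eigenvector. -/
lemma isCyclic_of_common (hρ : ∀ g, g ≠ 1 → ∀ v, ρ g v = v → v = 0) {v : Fin 2 → ℂ} (v0 : v ≠ 0)
    (hall : ∀ g : H, ∃ s : ℂ, ρ g v = s • v) : IsCyclic H := by
  choose χ hχ using hall
  have hcancel : ∀ s t : ℂ, s • v = t • v → s = t := by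
    intro s t hst
    have : (s - t) • v = 0 := by rw [sub_smul, hst, sub_self]
    exact sub_eq_zero.1 ((smul_eq_zero.1 this).resolve_right v0)
  let f : H →* ℂ :=
    { toFun := χ
      map_one' := hcancel _ _ (by rw [← hχ, map_one, Module.End.one_apply, one_smul])
      map_mul' := fun g g' => hcancel _ _ (by
        rw [← hχ, map_mul, Module.End.mul_apply, hχ, map_smul, hχ, smul_smul, mul_comm]) }
  refine isCyclic_of_subgroup_isDomain f ?_
  intro g g' hgg
  by_contra hne
  have h3 : g⁻¹ * g' ≠ 1 := fun h => hne (inv_mul_eq_one.1 h)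
  have h4 : f (g⁻¹ * g') = 1 := by
    rw [map_mul, ← hgg, ← map_mul, inv_mul_cancel, map_one]
  have h5 : ρ (g⁻¹ * g') v = v := by
    rw [hχ]
    change f (g⁻¹ * g') • v = v
    rw [h4, one_smul]
  exact v0 (hρ _ h3 v h5)

/-- A commutative normal subgroup with an element with two different eigenvalues. -/
theorem isCyclic_of_abelian (hodd : Odd (Nat.card H))
    (hρ : ∀ g, g ≠ 1 → ∀ v, ρ g v = v → v = 0) {A : Subgroup H} (hA : A.Normal)
    (hcomm : ∀ x ∈ A, ∀ y ∈ A, x * y = y * x) {z : H} (hz : z ∈ A) {a b : ℂ} (hab : a ≠ b)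
    (ha : (ρ z).HasEigenvalue a) (hb : (ρ z).HasEigenvalue b) : IsCyclic H := by
  obtain ⟨v, hv⟩ := ha.exists_hasEigenvector
  obtain ⟨v', hv'⟩ := hb.exists_hasEigenvector
  have h1 : ρ z v = a • v := hv.apply_eq_smul
  have h2 : ρ z v' = b • v' := hv'.apply_eq_smul
  have v0 : v ≠ 0 := hv.2
  have v0' : v' ≠ 0 := hv'.2
  -- the operators are injective
  have hinj : ∀ (g : H) (u : Fin 2 → ℂ), ρ g u = 0 → u = 0 := by
    intro g u hu
    have : ρ g⁻¹ (ρ g u) = u := by
      rw [← Module.End.mul_apply, ← map_mul, inv_mul_cancel, map_one, Module.End.one_apply]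
    rw [← this, hu, map_zero]
  -- the elements of `A` preserve the eigenlines
  have hline : ∀ y ∈ A, (∃ s : ℂ, ρ y v = s • v) ∧ ∃ s : ℂ, ρ y v' = s • v' := by
    intro y hy
    have hc := hcomm z hz y hy
    constructor
    · have h3 : ρ z (ρ y v) = a • ρ y v := by
        rw [← Module.End.mul_apply, ← map_mul, hc, map_mul, Module.End.mul_apply, h1, map_smul]
      rcases eigen_cases hab v0 v0' h1 h2 (fun h0 => v0 (hinj y v h0)) h3 with ⟨_, h⟩ | ⟨h, _⟩
      · exact h
      · exact absurd h hab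
    · have h3 : ρ z (ρ y v') = b • ρ y v' := by
        rw [← Module.End.mul_apply, ← map_mul, hc, map_mul, Module.End.mul_apply, h2, map_smul]
      rcases eigen_cases hab v0 v0' h1 h2 (fun h0 => v0' (hinj y v' h0)) h3 with ⟨h, _⟩ | ⟨_, h⟩
      · exact absurd h.symm hab
      · exact h
  have key : ∀ h : H, ∃ s : ℂ, ρ (h * h) v = s • v := by
    intro h
    have hy : h⁻¹ * z * h ∈ A := by
      have := hA.conj_mem z hz h⁻¹
      rwa [inv_inv] at this
    obtain ⟨⟨c, hc⟩, ⟨c', hc'⟩⟩ := hline _ hy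
    have hk : z * h = h * (h⁻¹ * z * h) := by group
    have h3 : ρ z (ρ h v) = c • ρ h v := by
      rw [← Module.End.mul_apply, ← map_mul, hk, map_mul, Module.End.mul_apply, hc, map_smul]
    have h4 : ρ z (ρ h v') = c' • ρ h v' := by
      rw [← Module.End.mul_apply, ← map_mul, hk, map_mul, Module.End.mul_apply, hc', map_smul]
    have n1 : ρ h v ≠ 0 := fun h0 => v0 (hinj h v h0)
    have n2 : ρ h v' ≠ 0 := fun h0 => v0' (hinj h v' h0)
    rw [map_mul, Module.End.mul_apply]
    rcases eigen_cases hab v0 v0' h1 h2 n1 h3 with ⟨_, s, hs⟩ | ⟨_, s, hs⟩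
    · exact ⟨s * s, by rw [hs, map_smul, hs, smul_smul]⟩
    · rcases eigen_cases hab v0 v0' h1 h2 n2 h4 with ⟨_, t, ht⟩ | ⟨_, t, ht⟩
      · exact ⟨s * t, by rw [hs, map_smul, ht, smul_smul]⟩
      · -- both eigenvectors are mapped to the same line
        exfalso
        have h5 : ρ h (t • v - s • v') = 0 := by
          rw [map_sub, map_smul, map_smul, hs, ht, smul_smul, smul_smul, mul_comm, sub_self]
        have h6 := hinj h _ h5
        have h7 : t • v = s • v' := sub_eq_zero.1 h6
        have ht0 : t ≠ 0 := by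
          rintro rfl
          exact n2 (by rw [ht, zero_smul])
        have h8 : ρ z (t • v) = b • (t • v) := by
          rw [h7, map_smul, h2, smul_comm]
        rw [map_smul, h1, smul_smul, smul_smul] at h8
        have h9 : (t * a - b * t) • v = 0 := by rw [sub_smul, h8, sub_self]
        rcases smul_eq_zero.1 h9 with h | h
        · apply hab
          have : t * (a - b) = 0 := by linear_combination h
          exact sub_eq_zero.1 ((mul_eq_zero.1 this).resolve_left ht0)
        · exact v0 h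
  refine isCyclic_of_common ρ hρ v0 fun g => ?_
  obtain ⟨j, hj⟩ := hodd
  have h3 : g = g ^ (j + 1) * g ^ (j + 1) := by
    rw [← pow_add]
    have h4 : g ^ Nat.card H = 1 := pow_card_eq_one'
    rw [show j + 1 + (j + 1) = Nat.card H + 1 by omega, pow_add, h4, one_mul, pow_one]
  rw [h3]
  exact key _

end

/-- An operator of finite order is a scalar or has two different eigenvalues. -/
lemma scalar_or_eigen {T : Module.End ℂ (Fin 2 → ℂ)} {n : ℕ} (hn : 0 < n) (hT : T ^ n = 1) :
    (∃ a : ℂ, ∀ v, T v = a • v) ∨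
      ∃ a b : ℂ, a ≠ b ∧ T.HasEigenvalue a ∧ T.HasEigenvalue b := by
  obtain ⟨a, ha⟩ := Module.End.exists_eigenvalue T
  by_cases hb : ∃ b, b ≠ a ∧ T.HasEigenvalue b
  · obtain ⟨b, hab, hb⟩ := hb
    exact Or.inr ⟨a, b, hab.symm, ha, hb⟩
  · left
    refine ⟨a, fun v => ?_⟩
    push Not at hb
    have hss : T.IsSemisimple := by
      refine Module.End.isSemisimple_of_squarefree_aeval_eq_zero
        (p := (Polynomial.X ^ n - Polynomial.C 1 : Polynomial ℂ)) ?_ ?_
      · exact (Polynomial.separable_X_pow_sub_C (1 : ℂ) (by exact_mod_cast hn.ne')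
          one_ne_zero).squarefree
      · simp [hT]
    have h1 := Module.End.iSup_maxGenEigenspace_eq_top T
    have h2 : (⨆ μ : ℂ, T.maxGenEigenspace μ) ≤ T.eigenspace a := by
      refine iSup_le fun μ => ?_
      rw [hss.isFinitelySemisimple.maxGenEigenspace_eq_eigenspace]
      by_cases hμ : μ = a
      · rw [hμ]
      · have h3 := hb μ hμ
        have h4 : T.eigenspace μ = ⊥ := by
          by_contra h5
          exact h3 h5
        rw [h4]
        exact bot_le
    rw [h1] at h2
    exact Module.End.mem_eigenspace_iff.1 (h2 (show v ∈ ⊤ by trivial))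

section
variable {H : Type*} [Group H] [Finite H] (ρ : H →* Module.End ℂ (Fin 2 → ℂ))

/-- A non-scalar element which is central modulo a central subgroup. -/
lemma isCyclic_of_central (hodd : Odd (Nat.card H))
    (hρ : ∀ g, g ≠ 1 → ∀ v, ρ g v = v → v = 0) (S : Subgroup H) [S.Normal]
    (hS : S ≤ center H) {z : H} (hz : (z : H ⧸ S) ∈ center (H ⧸ S)) {a b : ℂ} (hab : a ≠ b)
    (ha : (ρ z).HasEigenvalue a) (hb : (ρ z).HasEigenvalue b) : IsCyclic H := by
  have hN : (zpowers (z : H ⧸ S)).Normal := ⟨fun y hy g => by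
    have h1 : y ∈ center (H ⧸ S) := (zpowers_le.2 hz) hy
    rw [mem_center_iff.1 h1 g, mul_inv_cancel_right]
    exact hy⟩
  have hmem : ∀ x ∈ (zpowers (z : H ⧸ S)).comap (QuotientGroup.mk' S),
      ∃ k : ℤ, ∃ s ∈ S, x = z ^ k * s := by
    intro x hx
    obtain ⟨k, hk⟩ := hx
    refine ⟨k, (z ^ k)⁻¹ * x, ?_, by group⟩
    rw [← QuotientGroup.eq]
    exact hk
  refine isCyclic_of_abelian ρ hodd hρ
    (A := (zpowers (z : H ⧸ S)).comap (QuotientGroup.mk' S)) inferInstance ?_ ?_ hab ha hb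
  · intro x hx y hy
    obtain ⟨k, s, hs, rfl⟩ := hmem x hx
    obtain ⟨l, t, ht, rfl⟩ := hmem y hy
    have c1 : ∀ g, g * s = s * g := fun g => mem_center_iff.1 (hS hs) g
    have c2 : ∀ g, g * t = t * g := fun g => mem_center_iff.1 (hS ht) g
    calc z ^ k * s * (z ^ l * t) = z ^ k * (s * z ^ l) * t := by group
      _ = z ^ k * (z ^ l * s) * t := by rw [c1]
      _ = (z ^ k * z ^ l) * (s * t) := by group
      _ = (z ^ l * z ^ k) * (t * s) := by
          rw [c2 s, ← zpow_add, ← zpow_add, add_comm]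
      _ = z ^ l * (z ^ k * t) * s := by group
      _ = z ^ l * (t * z ^ k) * s := by rw [c2]
      _ = z ^ l * t * (z ^ k * s) := by group
  · exact mem_zpowers _

/-- The subgroup of the scalars. -/
def scalars : Subgroup H where
  carrier := {g | ∃ a : ℂ, ∀ v, ρ g v = a • v}
  one_mem' := ⟨1, fun v => by rw [map_one, Module.End.one_apply, one_smul]⟩
  mul_mem' := by
    rintro g h ⟨a, ha⟩ ⟨b, hb⟩
    exact ⟨a * b, fun v => by rw [map_mul, Module.End.mul_apply, hb, map_smul, ha, smul_smul,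
      mul_comm]⟩
  inv_mem' := by
    rintro g ⟨a, ha⟩
    refine ⟨a⁻¹, fun v => ?_⟩
    have h1 : ρ g (ρ g⁻¹ v) = v := by
      rw [← Module.End.mul_apply, ← map_mul, mul_inv_cancel, map_one, Module.End.one_apply]
    by_cases h0 : a = 0
    · have h2 : ∀ u : Fin 2 → ℂ, u = 0 := by
        intro u
        have h3 : ρ g (ρ g⁻¹ u) = u := by
          rw [← Module.End.mul_apply, ← map_mul, mul_inv_cancel, map_one, Module.End.one_apply]
        rw [← h3, ha, h0, zero_smul]
      rw [h2 (ρ g⁻¹ v), h2 (a⁻¹ • v)]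
    · rw [ha] at h1
      rw [← h1, smul_smul, inv_mul_cancel₀ h0, one_smul, h1]

lemma scalars_le (hρ : ∀ g, g ≠ 1 → ∀ v, ρ g v = v → v = 0) : scalars ρ ≤ center H := by
  rintro g ⟨a, ha⟩
  rw [mem_center_iff]
  intro h
  by_contra hne
  have h1 : h * g * (g * h)⁻¹ ≠ 1 := fun h2 => hne (mul_inv_eq_one.1 h2)
  have h2 : ∀ v, ρ (h * g * (g * h)⁻¹) v = v := by
    intro v
    have h3 : ρ (h * g) (ρ (g * h)⁻¹ v) = ρ (g * h) (ρ (g * h)⁻¹ v) := by
      rw [map_mul, map_mul, Module.End.mul_apply, Module.End.mul_apply, ha, ha, map_smul]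
    rw [map_mul, Module.End.mul_apply, h3, ← Module.End.mul_apply, ← map_mul, mul_inv_cancel,
      map_one, Module.End.one_apply]
  have h4 := hρ _ h1 ![1, 1] (h2 _)
  exact one_ne_zero (congrFun h4 0)

lemma mem_scalars_or (g : H) : g ∈ scalars ρ ∨
    ∃ a b : ℂ, a ≠ b ∧ (ρ g).HasEigenvalue a ∧ (ρ g).HasEigenvalue b := by
  have h1 : (ρ g) ^ orderOf g = 1 := by
    rw [← map_pow, pow_orderOf_eq_one, map_one]
  exact scalar_or_eigen (orderOf_pos g) h1

/-- If all operators are scalars. -/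
lemma isCyclic_of_scalars (hρ : ∀ g, g ≠ 1 → ∀ v, ρ g v = v → v = 0) (h : scalars ρ = ⊤) :
    IsCyclic H := by
  have hv : (![1, 1] : Fin 2 → ℂ) ≠ 0 := fun h => one_ne_zero (congrFun h 0)
  refine isCyclic_of_common ρ hρ hv fun g => ?_
  have : g ∈ scalars ρ := by rw [h]; trivial
  obtain ⟨a, ha⟩ := this
  exact ⟨a, ha _⟩

/-- The case of a group of prime power order. -/
lemma isCyclic_of_pgroup {p : ℕ} [Fact p.Prime] (hp : IsPGroup p H) (hodd : Odd (Nat.card H))
    (hρ : ∀ g, g ≠ 1 → ∀ v, ρ g v = v → v = 0) : IsCyclic H := by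
  by_cases htop : scalars ρ = ⊤
  · exact isCyclic_of_scalars ρ hρ htop
  have hS := scalars_le ρ hρ
  have hN : (scalars ρ).Normal := ⟨fun y hy g => by
    rw [mem_center_iff.1 (hS hy) g, mul_inv_cancel_right]
    exact hy⟩
  have hnt : Nontrivial (H ⧸ scalars ρ) := by
    rwa [QuotientGroup.nontrivial_iff]
  have hc : Nontrivial (center (H ⧸ scalars ρ)) := (hp.to_quotient (scalars ρ)).center_nontrivial
  obtain ⟨⟨y, hy⟩, hy1⟩ := exists_ne (1 : center (H ⧸ scalars ρ))
  obtain ⟨z, rfl⟩ := QuotientGroup.mk_surjective y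
  have hz : z ∉ scalars ρ := by
    intro h
    apply hy1
    exact Subtype.ext ((QuotientGroup.eq_one_iff z).2 h)
  obtain ⟨a, b, hab, ha, hb⟩ := (mem_scalars_or ρ z).resolve_left hz
  exact isCyclic_of_central ρ hodd hρ (scalars ρ) hS hy hab ha hb

end

/-- A group of odd order which acts on the complex plane such that no element except `1` has the
eigenvalue one is cyclic. -/
theorem isCyclic_of_free {H : Type*} [Group H] [Finite H] (hodd : Odd (Nat.card H))
    (ρ : H →* Module.End ℂ (Fin 2 → ℂ)) (hρ : ∀ g, g ≠ 1 → ∀ v, ρ g v = v → v = 0) :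
    IsCyclic H := by
  by_cases htop : scalars ρ = ⊤
  · exact isCyclic_of_scalars ρ hρ htop
  have hZ : IsZGroup H := ⟨fun p hp P => by
    have : Fact p.Prime := ⟨hp⟩
    refine isCyclic_of_pgroup (ρ.comp (P : Subgroup H).subtype) P.isPGroup' ?_ ?_
    · exact Odd.of_dvd_nat hodd (card_subgroup_dvd_card _)
    · intro g hg v hv
      exact hρ (g : H) (fun h => hg (Subtype.ext h)) v hv⟩
  by_cases hcom : commutator H ≤ scalars ρ
  · obtain ⟨z, hz⟩ : ∃ z, z ∉ scalars ρ := by
      by_contra h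
      push Not at h
      exact htop (eq_top_iff.2 fun x _ => h x)
    obtain ⟨a, b, hab, ha, hb⟩ := (mem_scalars_or ρ z).resolve_left hz
    refine isCyclic_of_central ρ hodd hρ (commutator H) (hcom.trans (scalars_le ρ hρ)) ?_ hab ha hb
    rw [mem_center_iff]
    intro g
    exact mul_comm (G := Abelianization H) g (Abelianization.of z)
  · obtain ⟨z, hz, hzs⟩ := Set.not_subset.1 hcom
    obtain ⟨a, b, hab, ha, hb⟩ := (mem_scalars_or ρ z).resolve_left hzs
    have hcyc : IsCyclic (commutator H) := IsZGroup.isCyclic_commutator H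
    refine isCyclic_of_abelian ρ hodd hρ (A := commutator H) inferInstance ?_ hz hab ha hb
    intro x hx y hy
    let _ := IsCyclic.commGroup (α := commutator H)
    exact congrArg Subtype.val (mul_comm (⟨x, hx⟩ : commutator H) ⟨y, hy⟩)

end Pool.Agent.H93.PF
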