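import Pool.Agent.H93.PF.Orders
import Pool.Agent.H93.PF.Free

/-!
# Finite groups of symplectomorphisms of a symplectic fake projective plane
-/

namespace Pool.Agent.H93.PF

open MulAction

/-- A finite group `G` which acts faithfully by symplectomorphisms on a symplectic fake projective
plane with the set of points `M`. For `g ≠ 1` the fixed points are isolated and their number is the
Lefschetz number three. A `G`-invariant almost complex structure gives complex representations of
the isotropy groups on the tangent spaces. -/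
structure FakePlaneGroup (G M : Type*) [Group G] [MulAction G M] where
  /-- The representation of the isotropy group of a point on the tangent space. -/
  tangent : ∀ x : M, stabilizer G x →* Module.End ℂ (Fin 2 → ℂ)
  /-- The fixed points are isolated. -/
  isolated : ∀ (x : M) (g : stabilizer G x), g ≠ 1 → ∀ v, tangent x g v = v → v = 0
  /-- The number of the fixed points. -/
  fixed : ∀ g : G, g ≠ 1 → (fixedBy M g).ncard = 3
  /-- The numerical data for the cyclic subgroups. -/
  cyclic : ∀ g : G, g ≠ 1 → Nonempty (FakePlaneAction (orderOf g))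

variable {G M : Type*} [Group G] [MulAction G M]

/-- The inclusion of the isotropy groups. -/
def stabHom (H : Subgroup G) (x : M) : stabilizer H x →* stabilizer G x where
  toFun g := ⟨((g : H) : G), g.2⟩
  map_one' := rfl
  map_mul' _ _ := rfl

lemma stabHom_ne {H : Subgroup G} {x : M} {g : stabilizer H x} (hg : g ≠ 1) :
    stabHom H x g ≠ 1 := by
  intro h
  apply hg
  have h1 : ((g : H) : G) = 1 := congrArg (fun y : stabilizer G x => (y : G)) h
  exact Subtype.ext (Subtype.ext h1)

/-- The restriction of the action to a subgroup. -/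
def FakePlaneGroup.restrict (D : FakePlaneGroup G M) (H : Subgroup G) : FakePlaneGroup H M where
  tangent x := (D.tangent x).comp (stabHom H x)
  isolated x g hg := D.isolated x (stabHom H x g) (stabHom_ne hg)
  fixed g hg := D.fixed (g : G) fun h => hg (Subtype.ext h)
  cyclic g hg := by
    have := D.cyclic (g : G) fun h => hg (Subtype.ext h)
    rwa [Subgroup.orderOf_coe] at this

variable [Finite G] (D : FakePlaneGroup G M)

include D

/-- The orders of the elements. -/
lemma order_elem {g : G} (hg : g ≠ 1) : orderOf g = 3 ∨ orderOf g = 5 ∨ orderOf g = 7 ∨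
    orderOf g = 11 ∨ orderOf g = 15 ∨ orderOf g = 21 ∨ orderOf g = 33 := by
  have hpos : 0 < orderOf g := orderOf_pos g
  have h1 : 1 < orderOf g := by
    have : orderOf g ≠ 1 := fun h => hg (orderOf_eq_one_iff.1 h)
    omega
  refine order_mem h1 fun m hm hmd => ?_
  have h2 : orderOf (g ^ (orderOf g / m)) = m := orderOf_pow_orderOf_div hpos.ne' hmd
  have h3 := D.cyclic (g ^ (orderOf g / m)) fun h => by
    rw [h, orderOf_one] at h2
    omega
  rwa [h2] at h3

lemma odd_card : Odd (Nat.card G) := by
  rw [← Nat.not_even_iff_odd, even_iff_two_dvd]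
  intro h
  have : Fact (Nat.Prime 2) := ⟨Nat.prime_two⟩
  obtain ⟨g, hg⟩ := exists_prime_orderOf_dvd_card' 2 h
  have := order_elem D (g := g) (by rintro rfl; rw [orderOf_one] at hg; omega)
  omega

/-- The isotropy groups are cyclic. -/
lemma isCyclic_stabilizer (x : M) : IsCyclic (stabilizer G x) :=
  isCyclic_of_free (Odd.of_dvd_nat (odd_card D) (Subgroup.card_subgroup_dvd_card _)) (D.tangent x)
    (D.isolated x)

omit [Finite G] in
lemma exists_fixedBy {z : G} (hz : z ≠ 1) : (fixedBy M z).Nonempty := by
  have h3 := D.fixed z hz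
  rw [Set.nonempty_iff_ne_empty]
  intro h
  rw [h, Set.ncard_empty] at h3
  omega

omit [Finite G] in
/-- The index of the isotropy group of a fixed point of an element which generates a normal
subgroup. -/
lemma index_le_three {z : G} (hz : z ≠ 1) (hn : (Subgroup.zpowers z).Normal) {x : M}
    (hx : x ∈ fixedBy M z) : (stabilizer G x).index ≤ 3 := by
  have h3 := D.fixed z hz
  have hfin : (fixedBy M z).Finite := Set.finite_of_ncard_ne_zero (by omega)
  rw [index_stabilizer]
  rw [← h3]
  refine Set.ncard_le_ncard ?_ hfin
  rintro y ⟨g, rfl⟩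
  have h1 : g⁻¹ * z * g ∈ Subgroup.zpowers z := by
    have := hn.conj_mem z (Subgroup.mem_zpowers z) g⁻¹
    rwa [inv_inv] at this
  have h2 : Subgroup.zpowers z ≤ stabilizer G x := by
    rw [Subgroup.zpowers_le]
    exact hx
  have h4 : (g⁻¹ * z * g) • x = x := h2 h1
  show z • (g • x) = g • x
  calc z • (g • x) = g • ((g⁻¹ * z * g) • x) := by
        rw [smul_smul, smul_smul]
        congr 1
        group
    _ = g • x := by rw [h4]

/-- An element which generates a normal subgroup gives a large cyclic subgroup. -/
lemma exists_cyclic {z : G} (hz : z ≠ 1) (hn : (Subgroup.zpowers z).Normal) :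
    ∃ S : Subgroup G, IsCyclic S ∧ S.index ≤ 3 := by
  obtain ⟨x, hx⟩ := exists_fixedBy D hz
  exact ⟨stabilizer G x, isCyclic_stabilizer D x, index_le_three D hz hn hx⟩

/-- If the index is one, the group is cyclic. -/
lemma isCyclic_of_index {S : Subgroup G} (h1 : IsCyclic S) (h2 : S.index = 1) : IsCyclic G := by
  rw [Subgroup.index_eq_one] at h2
  subst h2
  exact isCyclic_of_surjective Subgroup.topEquiv.toMonoidHom Subgroup.topEquiv.surjective

/-- The groups of prime power order. -/
lemma pgroup_cyclic {p : ℕ} [Fact p.Prime] (h5 : 5 ≤ p) (hG : IsPGroup p G) : IsCyclic G := by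
  rcases subsingleton_or_nontrivial G with hs | hs
  · exact isCyclic_of_subsingleton
  have := hG.center_nontrivial
  obtain ⟨z, hz⟩ := exists_ne (1 : Subgroup.center G)
  obtain ⟨S, hS, hi⟩ := exists_cyclic D (z := (z : G)) (fun h => hz (Subtype.ext h))
    ⟨fun y hy g => by
      have h1 : y ∈ Subgroup.center G := (Subgroup.zpowers_le.2 z.2) hy
      rw [Subgroup.mem_center_iff.1 h1 g, mul_inv_cancel_right]
      exact hy⟩
  refine isCyclic_of_index D hS ?_
  obtain ⟨k, hk⟩ := hG.index S
  rcases Nat.eq_zero_or_pos k with rfl | hk0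
  · simpa using hk
  · have : p ^ 1 ≤ p ^ k := Nat.pow_le_pow_right (by omega) hk0
    rw [pow_one] at this
    omega

lemma pgroup_three (hG : IsPGroup 3 G) : Nat.card G ∣ 9 := by
  have : Fact (Nat.Prime 3) := ⟨Nat.prime_three⟩
  rcases subsingleton_or_nontrivial G with hs | hs
  · rw [Nat.card_of_subsingleton (1 : G)]
    exact one_dvd _
  have := hG.center_nontrivial
  obtain ⟨z, hz⟩ := exists_ne (1 : Subgroup.center G)
  obtain ⟨S, hS, hi⟩ := exists_cyclic D (z := (z : G)) (fun h => hz (Subtype.ext h))
    ⟨fun y hy g => by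
      have h1 : y ∈ Subgroup.center G := (Subgroup.zpowers_le.2 z.2) hy
      rw [Subgroup.mem_center_iff.1 h1 g, mul_inv_cancel_right]
      exact hy⟩
  obtain ⟨k, hk⟩ := hG.index S
  have h1 : S.index ∣ 3 := by
    have hk1 : k ≤ 1 := by
      by_contra hlt
      have : 3 ^ 2 ≤ 3 ^ k := Nat.pow_le_pow_right (by norm_num) (by omega)
      omega
    rw [hk]
    calc 3 ^ k ∣ 3 ^ 1 := pow_dvd_pow 3 hk1
      _ = 3 := pow_one 3
  have h2 : Nat.card S ∣ 3 := by
    obtain ⟨s, hs⟩ := hS.exists_generator
    rw [← orderOf_eq_card_of_forall_mem_zpowers hs, ← Subgroup.orderOf_coe]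
    by_cases h1 : (s : G) = 1
    · rw [h1, orderOf_one]
      exact one_dvd _
    · obtain ⟨j, hj⟩ := IsPGroup.iff_orderOf.1 hG (s : G)
      have h2 := order_elem D h1
      have h3 : 3 ∣ orderOf (s : G) := by
        rw [hj]
        refine dvd_pow_self 3 ?_
        rintro rfl
        rw [pow_zero] at hj
        omega
      have h5 : ¬ 5 ∣ orderOf (s : G) := by
        rw [hj]
        intro h
        have := (Nat.prime_five).dvd_of_dvd_pow h
        omega
      have h7 : ¬ 7 ∣ orderOf (s : G) := by
        rw [hj]
        intro h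
        have := (show Nat.Prime 7 by norm_num).dvd_of_dvd_pow h
        omega
      have h11 : ¬ 11 ∣ orderOf (s : G) := by
        rw [hj]
        intro h
        have := (show Nat.Prime 11 by norm_num).dvd_of_dvd_pow h
        omega
      have : orderOf (s : G) = 3 := by omega
      rw [this]
  rw [← S.card_mul_index]
  exact mul_dvd_mul h2 h1

end Pool.Agent.H93.PF
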