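import Pool.Agent.H93.PF.Structure
import Pool.Agent.H93.PF.Examples

/-!
# Groups of order five, seven and eleven satisfy the conditions
-/

namespace Pool.Agent.H93.PF

open MulAction

section
variable (p : ℕ) [Fact p.Prime]

/-- The character `k ↦ exp (2 π i k / p)`. -/
noncomputable def chr : Multiplicative (ZMod p) →* ℂ :=
  AddChar.toMonoidHom (ZMod.stdAddChar (N := p))

lemma chr_ne_one {g : Multiplicative (ZMod p)} (hg : g ≠ 1) : chr p g ≠ 1 := by
  intro h
  apply hg
  have h1 : ZMod.stdAddChar (N := p) (Multiplicative.toAdd g) =
      ZMod.stdAddChar (N := p) 0 := by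
    rw [AddChar.map_zero_eq_one]
    exact h
  exact ZMod.injective_stdAddChar h1

/-- The representation with the weights `1` and `2`. -/
noncomputable def rep : Multiplicative (ZMod p) →* Module.End ℂ (Fin 2 → ℂ) where
  toFun g := Matrix.toLin' (Matrix.diagonal ![chr p g, chr p g ^ 2])
  map_one' := by
    refine LinearMap.ext fun v => ?_
    funext i
    fin_cases i <;> simp [Matrix.mulVec_diagonal, Matrix.toLin'_apply]
  map_mul' g h := by
    refine LinearMap.ext fun v => ?_
    funext i
    fin_cases i
    · simp [Matrix.mulVec_diagonal, Matrix.toLin'_apply, mul_assoc]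
    · simp [Matrix.mulVec_diagonal, Matrix.toLin'_apply]
      ring

lemma rep_apply (g : Multiplicative (ZMod p)) (v : Fin 2 → ℂ) :
    rep p g v = ![chr p g * v 0, chr p g ^ 2 * v 1] := by
  funext i
  fin_cases i <;> simp [rep, Matrix.mulVec_diagonal, Matrix.toLin'_apply]

/-- The trivial action on three points. -/
def trivAction : MulAction (Multiplicative (ZMod p)) (Fin 3) where
  smul _ x := x
  one_smul _ := rfl
  mul_smul _ _ _ := rfl

/-- The group of prime order `p` with a given numerical datum. -/
noncomputable def ofPrime (hp : 2 < p) (h : Nonempty (FakePlaneAction p)) :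
    letI := trivAction p
    FakePlaneGroup (Multiplicative (ZMod p)) (Fin 3) :=
  letI := trivAction p
  { tangent := fun x => (rep p).comp (stabilizer (Multiplicative (ZMod p)) x).subtype
    isolated := by
      intro x g hg v hv
      have hg' : (g : Multiplicative (ZMod p)) ≠ 1 := fun h => hg (Subtype.ext h)
      have h1 := chr_ne_one p hg'
      have h2 : chr p (g : Multiplicative (ZMod p)) ^ 2 ≠ 1 := by
        rw [← map_pow]
        refine chr_ne_one p fun h3 => hg' ?_
        have h4 : orderOf (g : Multiplicative (ZMod p)) ∣ 2 := orderOf_dvd_of_pow_eq_one h3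
        have h5 : orderOf (g : Multiplicative (ZMod p)) ∣ p := by
          have := orderOf_dvd_natCard (g : Multiplicative (ZMod p))
          rwa [Nat.card_congr Multiplicative.toAdd, Nat.card_zmod] at this
        rw [← orderOf_eq_one_iff]
        rcases (Nat.dvd_prime (Fact.out : p.Prime)).1 h5 with h6 | h6
        · exact h6
        · rw [h6] at h4
          have := Nat.le_of_dvd (by norm_num) h4
          omega
      have hv' : rep p (g : Multiplicative (ZMod p)) v = v := hv
      rw [rep_apply] at hv'
      have e0 : chr p (g : Multiplicative (ZMod p)) * v 0 = v 0 := congrFun hv' 0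
      have e1 : chr p (g : Multiplicative (ZMod p)) ^ 2 * v 1 = v 1 := congrFun hv' 1
      funext i
      fin_cases i
      · have : (chr p (g : Multiplicative (ZMod p)) - 1) * v 0 = 0 := by linear_combination e0
        exact (mul_eq_zero.1 this).resolve_left (sub_ne_zero.2 h1)
      · have : (chr p (g : Multiplicative (ZMod p)) ^ 2 - 1) * v 1 = 0 := by
          linear_combination e1
        exact (mul_eq_zero.1 this).resolve_left (sub_ne_zero.2 h2)
    fixed := by
      intro g _
      have : fixedBy (Fin 3) g = Set.univ := Set.eq_univ_of_forall fun x => rfl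
      rw [this, Set.ncard_univ, Nat.card_eq_fintype_card, Fintype.card_fin]
    cyclic := by
      intro g hg
      have h5 : orderOf g ∣ p := by
        have := orderOf_dvd_natCard g
        rwa [Nat.card_congr Multiplicative.toAdd, Nat.card_zmod] at this
      rcases (Nat.dvd_prime (Fact.out : p.Prime)).1 h5 with h6 | h6
      · exact absurd (orderOf_eq_one_iff.1 h6) hg
      · rw [h6]
        exact h }

end

/-- The orders five, seven and eleven are not excluded. -/
theorem exists_group (p : ℕ) (hp : p = 5 ∨ p = 7 ∨ p = 11) :
    ∃ (G : Type) (_ : Group G) (_ : Finite G) (_ : MulAction G (Fin 3)),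
      Nat.card G = p ∧ Nonempty (FakePlaneGroup G (Fin 3)) := by
  have hpp : Fact p.Prime := ⟨by rcases hp with rfl | rfl | rfl <;> norm_num⟩
  have hn : Nonempty (FakePlaneAction p) := by
    rcases hp with rfl | rfl | rfl
    · exact nonempty_five
    · exact nonempty_seven
    · exact nonempty_eleven
  refine ⟨Multiplicative (ZMod p), inferInstance, inferInstance, trivAction p, ?_,
    ⟨ofPrime p (by omega) hn⟩⟩
  rw [Nat.card_congr Multiplicative.toAdd, Nat.card_zmod]

end Pool.Agent.H93.PF
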