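import Mathlib

/-!
# The fixed point formula for the index of a line bundle

`lef n w h z` is the right side of the holomorphic Lefschetz formula for a cyclic group of order
`n` acting with three isolated fixed points, with the cotangent weights `w (i + 1) - w i` and
`w (i + 2) - w i` and the weights `h i` on the fibres of a line bundle. It vanishes if
`h i + w i` does not depend on `i`, and it does not vanish if `n > 3` and the three numbers
`h i + w i` are different and congruent modulo the elements of order three.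
-/

namespace Pool.Agent.H93.PF

open Finset

/-- The right side of the Lefschetz formula. -/
noncomputable def lef (n : ℕ) (w h : Fin 3 → ZMod n) (z : ℂ) : ℂ :=
  ∑ i, z ^ (h i).val / ((1 - z ^ (w (i + 1) - w i).val) * (1 - z ^ (w (i + 2) - w i).val))

section

variable {n : ℕ} [NeZero n] {z : ℂ}

lemma pow_val_add (hz : z ^ n = 1) (a b : ZMod n) :
    z ^ (a + b).val = z ^ a.val * z ^ b.val := by
  rw [ZMod.val_add, ← pow_eq_pow_mod _ hz, pow_add]

lemma pow_val_sub (hz : z ^ n = 1) (a b : ZMod n) :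
    z ^ (a - b).val * z ^ b.val = z ^ a.val := by
  rw [← pow_val_add hz, sub_add_cancel]

lemma pow_val_ne_one (hz : IsPrimitiveRoot z n) {a : ZMod n} (ha : a ≠ 0) :
    z ^ a.val ≠ 1 := by
  intro h
  have h1 := (hz.pow_eq_one_iff_dvd a.val).mp h
  have h2 := Nat.eq_zero_of_dvd_of_lt h1 (ZMod.val_lt a)
  exact ha ((ZMod.val_eq_zero a).mp h2)

lemma pow_val_ne (hz : IsPrimitiveRoot z n) {a b : ZMod n} (h : a ≠ b) :
    z ^ a.val ≠ z ^ b.val := by
  intro e
  have h1 := pow_val_sub hz.pow_eq_one a b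
  have h2 : z ^ b.val ≠ 0 := pow_ne_zero _ (hz.ne_zero (NeZero.ne n))
  have h3 : z ^ (a - b).val = 1 := by
    have : (z ^ (a - b).val - 1) * z ^ b.val = 0 := by rw [sub_mul, h1, e]; ring
    rcases mul_eq_zero.mp this with h4 | h4
    · exact sub_eq_zero.mp h4
    · exact absurd h4 h2
  exact pow_val_ne_one hz (sub_ne_zero.mpr h) h3

/-- One term of the formula. -/
lemma term_eq (hz : IsPrimitiveRoot z n) (a b c k : ZMod n) (hab : b ≠ a) (hac : c ≠ a) :
    z ^ k.val / ((1 - z ^ (b - a).val) * (1 - z ^ (c - a).val)) =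
      z ^ (k + a).val * z ^ a.val /
        ((z ^ a.val - z ^ b.val) * (z ^ a.val - z ^ c.val)) := by
  have h0 : z ^ a.val ≠ 0 := pow_ne_zero _ (hz.ne_zero (NeZero.ne n))
  have hb := pow_val_sub hz.pow_eq_one b a
  have hc := pow_val_sub hz.pow_eq_one c a
  have h1 : z ^ a.val - z ^ b.val ≠ 0 := sub_ne_zero.mpr (pow_val_ne hz (Ne.symm hab))
  have h2 : z ^ a.val - z ^ c.val ≠ 0 := sub_ne_zero.mpr (pow_val_ne hz (Ne.symm hac))
  have h3 : (1 - z ^ (b - a).val) * z ^ a.val = z ^ a.val - z ^ b.val := by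
    rw [sub_mul, hb, one_mul]
  have h4 : (1 - z ^ (c - a).val) * z ^ a.val = z ^ a.val - z ^ c.val := by
    rw [sub_mul, hc, one_mul]
  have h5 : 1 - z ^ (b - a).val ≠ 0 := by
    intro h; rw [h, zero_mul] at h3; exact h1 h3.symm
  have h6 : 1 - z ^ (c - a).val ≠ 0 := by
    intro h; rw [h, zero_mul] at h4; exact h2 h4.symm
  rw [pow_val_add hz.pow_eq_one, ← h3, ← h4]
  field_simp

/-- The whole formula. -/
lemma lef_eq (hz : IsPrimitiveRoot z n) {w h : Fin 3 → ZMod n}
    (hw : ∀ i j, i ≠ j → w i ≠ w j) :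
    lef n w h z * ((z ^ (w 0).val - z ^ (w 1).val) * (z ^ (w 1).val - z ^ (w 2).val) *
      (z ^ (w 2).val - z ^ (w 0).val)) =
      -(z ^ (h 0 + w 0).val * z ^ (w 0).val * (z ^ (w 1).val - z ^ (w 2).val) +
        z ^ (h 1 + w 1).val * z ^ (w 1).val * (z ^ (w 2).val - z ^ (w 0).val) +
        z ^ (h 2 + w 2).val * z ^ (w 2).val * (z ^ (w 0).val - z ^ (w 1).val)) := by
  have h01 := sub_ne_zero.mpr (pow_val_ne hz (hw 0 1 (by decide)))
  have h12 := sub_ne_zero.mpr (pow_val_ne hz (hw 1 2 (by decide)))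
  have h20 := sub_ne_zero.mpr (pow_val_ne hz (hw 2 0 (by decide)))
  have e1 : z ^ (w 1).val - z ^ (w 0).val = -(z ^ (w 0).val - z ^ (w 1).val) := by ring
  have e2 : z ^ (w 2).val - z ^ (w 1).val = -(z ^ (w 1).val - z ^ (w 2).val) := by ring
  have e3 : z ^ (w 0).val - z ^ (w 2).val = -(z ^ (w 2).val - z ^ (w 0).val) := by ring
  have s01 : (0 : Fin 3) + 1 = 1 := by decide
  have s02 : (0 : Fin 3) + 2 = 2 := by decide
  have s11 : (1 : Fin 3) + 1 = 2 := by decide
  have s12 : (1 : Fin 3) + 2 = 0 := by decide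
  have s21 : (2 : Fin 3) + 1 = 0 := by decide
  have s22 : (2 : Fin 3) + 2 = 1 := by decide
  unfold lef
  rw [Fin.sum_univ_three, s01, s02, s11, s12, s21, s22,
    term_eq hz _ _ _ _ (hw 1 0 (by decide)) (hw 2 0 (by decide)),
    term_eq hz _ _ _ _ (hw 2 1 (by decide)) (hw 0 1 (by decide)),
    term_eq hz _ _ _ _ (hw 0 2 (by decide)) (hw 1 2 (by decide)), e1, e2, e3]
  field_simp
  ring

end

/-- A sum of three complex numbers of absolute value one vanishes only if their third powers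
coincide. -/
lemma cube_eq_of_sum_eq_zero {x y t : ℂ} (hx : ‖x‖ = 1) (hy : ‖y‖ = 1) (ht : ‖t‖ = 1)
    (h : x + y + t = 0) : x ^ 3 = y ^ 3 := by
  have hx0 : x ≠ 0 := by intro h0; rw [h0, norm_zero] at hx; exact zero_ne_one hx
  have hy0 : y ≠ 0 := by intro h0; rw [h0, norm_zero] at hy; exact zero_ne_one hy
  have ht0 : t ≠ 0 := by intro h0; rw [h0, norm_zero] at ht; exact zero_ne_one ht
  have hc : x⁻¹ + y⁻¹ + t⁻¹ = 0 := by
    rw [Complex.inv_eq_conj hx, Complex.inv_eq_conj hy, Complex.inv_eq_conj ht, ← map_add,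
      ← map_add, h, map_zero]
  have h1 : y * t + x * t + x * y = 0 := by
    have : (x⁻¹ + y⁻¹ + t⁻¹) * (x * y * t) = y * t + x * t + x * y := by
      field_simp
    rw [← this, hc, zero_mul]
  have h2 : t = -(x + y) := by linear_combination h
  rw [h2] at h1
  have h3 : x ^ 2 + x * y + y ^ 2 = 0 := by linear_combination -h1
  linear_combination (x - y) * h3

lemma norm_pow_val {n : ℕ} [NeZero n] {z : ℂ} (hz : z ^ n = 1) (a : ZMod n) :
    ‖z ^ a.val‖ = 1 := by
  rw [norm_pow, Complex.norm_eq_one_of_pow_eq_one hz (NeZero.ne n), one_pow]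

/-- Differences which are units do not vanish. -/
lemma ne_of_isUnit_sub {n : ℕ} (hn : 1 < n) {w : Fin 3 → ZMod n}
    (hw : ∀ i j, i ≠ j → IsUnit (w i - w j)) (i j : Fin 3) (hij : i ≠ j) : w i ≠ w j := by
  have : Fact (1 < n) := ⟨hn⟩
  intro e
  have h1 := hw i j hij
  rw [e, sub_self] at h1
  exact not_isUnit_zero h1

/-- If the numbers `h i + w i` coincide, the right side of the Lefschetz formula vanishes. -/
theorem lef_eq_zero {n : ℕ} [NeZero n] {w h : Fin 3 → ZMod n}
    (hwu : ∀ i j, i ≠ j → IsUnit (w i - w j)) {e : ZMod n} (he : ∀ i, h i = -w i + e) {z : ℂ}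
    (hz : IsPrimitiveRoot z n) (hn : 1 < n) : lef n w h z = 0 := by
  have hw := ne_of_isUnit_sub hn hwu
  have h01 := sub_ne_zero.mpr (pow_val_ne hz (hw 0 1 (by decide)))
  have h12 := sub_ne_zero.mpr (pow_val_ne hz (hw 1 2 (by decide)))
  have h20 := sub_ne_zero.mpr (pow_val_ne hz (hw 2 0 (by decide)))
  have hs : ∀ i, h i + w i = e := fun i => by rw [he i]; ring
  have key := lef_eq (h := h) hz hw
  rw [hs 0, hs 1, hs 2] at key
  have h0 : lef n w h z * ((z ^ (w 0).val - z ^ (w 1).val) * (z ^ (w 1).val - z ^ (w 2).val) *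
      (z ^ (w 2).val - z ^ (w 0).val)) = 0 := by rw [key]; ring
  rcases mul_eq_zero.mp h0 with h1 | h1
  · exact h1
  · exact absurd h1 (mul_ne_zero (mul_ne_zero h01 h12) h20)

/-- If the numbers `h i + w i` are different, their differences are killed by three, and `n > 3`,
then the right side of the Lefschetz formula does not vanish. -/
theorem lef_ne_zero {n : ℕ} [NeZero n] (hn : 3 < n) {w h : Fin 3 → ZMod n}
    (hw : ∀ i j, i ≠ j → IsUnit (w i - w j))
    (h3 : ∀ i j, 3 * ((h i + w i) - (h j + w j)) = 0)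
    (hne : ∀ i j, i ≠ j → h i + w i ≠ h j + w j) {z : ℂ} (hz : IsPrimitiveRoot z n) :
    lef n w h z ≠ 0 := by
  have hw' := ne_of_isUnit_sub (by omega) hw
  have hz1 := hz.pow_eq_one
  -- cube roots of unity
  have cube : ∀ k : ZMod n, 3 * k = 0 → (z ^ k.val) ^ 3 = 1 := by
    intro k hk
    have e : k + k + k = 0 := by linear_combination hk
    have := pow_val_add hz1 (k + k) k
    rw [e, pow_val_add hz1 k k, ZMod.val_zero, pow_zero] at this
    rw [this]; ring
  have prim : ∀ k : ZMod n, 3 * k = 0 → k ≠ 0 →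
      (z ^ k.val) ^ 2 + z ^ k.val + 1 = 0 := by
    intro k hk hk0
    have h1 := cube k hk
    have h2 := pow_val_ne_one hz hk0
    have h4 : (z ^ k.val - 1) * ((z ^ k.val) ^ 2 + z ^ k.val + 1) = 0 := by
      linear_combination h1
    rcases mul_eq_zero.mp h4 with h5 | h5
    · exact absurd (sub_eq_zero.mp h5) h2
    · exact h5
  intro hl
  have key := lef_eq (h := h) hz hw'
  rw [hl, zero_mul] at key
  set k₁ := (h 1 + w 1) - (h 0 + w 0) with hk1
  set k₂ := (h 2 + w 2) - (h 1 + w 1) with hk2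
  have p1 := prim k₁ (h3 1 0) (sub_ne_zero.mpr (hne 1 0 (by decide)))
  have p2 := prim k₂ (h3 2 1) (sub_ne_zero.mpr (hne 2 1 (by decide)))
  have hk12 : k₁ + k₂ = (h 2 + w 2) - (h 0 + w 0) := by rw [hk1, hk2]; ring
  have p3 : z ^ (k₁ + k₂).val ≠ 1 :=
    pow_val_ne_one hz (by rw [hk12]; exact sub_ne_zero.mpr (hne 2 0 (by decide)))
  rw [pow_val_add hz1] at p3
  have q1 : z ^ (h 1 + w 1).val = z ^ k₁.val * z ^ (h 0 + w 0).val := by
    rw [hk1, pow_val_sub hz1]
  have q2 : z ^ (h 2 + w 2).val = z ^ k₂.val * z ^ (h 1 + w 1).val := by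
    rw [hk2, pow_val_sub hz1]
  rw [q2, q1] at key
  have n1 := norm_pow_val hz1 k₁
  set ρ := z ^ k₁.val with hρ
  set σ := z ^ k₂.val with hσ
  have hσρ : σ = ρ := by
    have h5 : (σ - ρ) * (σ - ρ ^ 2) = 0 := by
      linear_combination p2 + (ρ - 1 - σ) * p1
    rcases mul_eq_zero.mp h5 with h6 | h6
    · exact sub_eq_zero.mp h6
    · exfalso
      apply p3
      rw [sub_eq_zero.mp h6]
      linear_combination (ρ - 1) * p1
  rw [hσρ] at key
  have nA := norm_pow_val hz1 (w 0)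
  have nB := norm_pow_val hz1 (w 1)
  have nC := norm_pow_val hz1 (w 2)
  have hU : z ^ (h 0 + w 0).val ≠ 0 := pow_ne_zero _ (hz.ne_zero (NeZero.ne n))
  have hρ1 : ρ ≠ 1 := pow_val_ne_one hz (sub_ne_zero.mpr (hne 1 0 (by decide)))
  set A := z ^ (w 0).val with hA
  set B := z ^ (w 1).val with hB
  set C := z ^ (w 2).val with hC
  set U := z ^ (h 0 + w 0).val with hUdef
  have h7 : U * (1 - ρ) * (A * B + ρ * (B * C) + ρ ^ 2 * (C * A)) = 0 := by
    linear_combination key + U * C * A * (1 - ρ) * p1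
  have h8 : A * B + ρ * (B * C) + ρ ^ 2 * (C * A) = 0 := by
    rcases mul_eq_zero.mp h7 with h9 | h9
    · rcases mul_eq_zero.mp h9 with h10 | h10
      · exact absurd h10 hU
      · exact absurd (sub_eq_zero.mp h10).symm hρ1
    · exact h9
  have h11 := cube_eq_of_sum_eq_zero (x := A * B) (y := ρ * (B * C)) (t := ρ ^ 2 * (C * A))
    (by rw [norm_mul, nA, nB, one_mul]) (by rw [norm_mul, norm_mul, n1, nB, nC]; norm_num)
    (by rw [norm_mul, norm_mul, norm_pow, n1, nA, nC]; norm_num) h8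
  have hB0 : B ≠ 0 := by intro h0; rw [h0, norm_zero] at nB; exact zero_ne_one nB
  have hC0 : C ≠ 0 := by intro h0; rw [h0, norm_zero] at nC; exact zero_ne_one nC
  have h12 : A ^ 3 = C ^ 3 := by
    have h13 : B ^ 3 * (A ^ 3 - C ^ 3) = 0 := by
      linear_combination h11 + (B * C) ^ 3 * (ρ - 1) * p1
    rcases mul_eq_zero.mp h13 with h14 | h14
    · exact absurd h14 (pow_ne_zero _ hB0)
    · exact sub_eq_zero.mp h14
  have h15 : (z ^ (w 0 - w 2).val) ^ 3 = 1 := by
    have h16 := pow_val_sub hz1 (w 0) (w 2)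
    rw [← hA, ← hC] at h16
    have h17 : ((z ^ (w 0 - w 2).val) ^ 3 - 1) * C ^ 3 = 0 := by
      rw [sub_mul, ← mul_pow, h16, h12]; ring
    rcases mul_eq_zero.mp h17 with h18 | h18
    · exact sub_eq_zero.mp h18
    · exact absurd h18 (pow_ne_zero _ hC0)
  have h19 : (3 : ZMod n) * (w 0 - w 2) = 0 := by
    by_contra h20
    apply pow_val_ne_one hz h20
    have e : (3 : ZMod n) * (w 0 - w 2) = (w 0 - w 2) + (w 0 - w 2) + (w 0 - w 2) := by ring
    rw [e, pow_val_add hz1, pow_val_add hz1]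
    linear_combination h15
  have h21 : (3 : ZMod n) = 0 := by
    obtain ⟨v, hv⟩ := hw 0 2 (by decide)
    rw [← hv] at h19
    have h22 : (3 : ZMod n) * (v : ZMod n) * (↑v⁻¹ : ZMod n) = 0 := by rw [h19, zero_mul]
    rwa [mul_assoc, v.mul_inv, mul_one] at h22
  have h23 : ((3 : ℕ) : ZMod n) = 0 := by exact_mod_cast h21
  rw [ZMod.natCast_eq_zero_iff] at h23
  have := Nat.le_of_dvd (by norm_num) h23
  omega

end Pool.Agent.H93.PF
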