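import Pool.Agent.H93.PF.Finite

/-!
# The search for the orders nine, eleven and thirteen, normalised weights
-/

namespace Pool.Agent.H93.PF

open Finset

set_option maxRecDepth 100000 in
lemma mem13 : ∀ (t : ZMod 13) (i : Fin 3) (u : ZMod 13), (t ≠ 0 ∧ t ≠ 1 ∧ u ≠ 0 ∧
    (expo ![0, 1, t] i 13 u).1 ≤ 9 ∧ (expo ![0, 1, t] i 13 u).2 ≤ 9) →
      triple ![0, 1, t] i u ∈ list13 t.val := by
  decide

set_option maxRecDepth 100000 in
lemma mem11 : ∀ (t : ZMod 11) (i : Fin 3) (u : ZMod 11), ((t = 2 ∨ t = 6 ∨ t = 10) ∧ u ≠ 0 ∧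
    (expo ![0, 1, t] i 11 u).1 ≤ 7 ∧ (expo ![0, 1, t] i 11 u).2 ≤ 7) →
      triple ![0, 1, t] i u ∈ list11 t.val := by
  decide

set_option maxRecDepth 100000 in
lemma mem9 : ∀ (t : ZMod 9) (i : Fin 3) (u : ZMod 9),
    ((t = 2 ∨ t = 5 ∨ t = 8) ∧ u.val.Coprime 9) →
      triple ![0, 1, t] i u ∈ list9 t.val := by
  decide

lemma search13 (t : ZMod 13) (h0 : t ≠ 0) (h1 : t ≠ 1) :
    search (9, 9, 9) 6 (list13 t.val) 4 [] = true := by
  have hlt : t.val < 13 := ZMod.val_lt t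
  have ht : ((t.val : ℕ) : ZMod 13) = t := ZMod.natCast_zmod_val t
  generalize t.val = n at hlt ht
  interval_cases n
  · exact absurd ht.symm (by simpa using h0)
  · exact absurd ht.symm (by simpa using h1)
  · exact search13_2
  · exact search13_3
  · exact search13_4
  · exact search13_5
  · exact search13_6
  · exact search13_7
  · exact search13_8
  · exact search13_9
  · exact search13_10
  · exact search13_11
  · exact search13_12

lemma search11 (t : ZMod 11) (h : t = 2 ∨ t = 6 ∨ t = 10) :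
    search (7, 7, 7) 10 (list11 t.val) 4 [] = true := by
  rcases h with rfl | rfl | rfl
  · exact search11_2
  · exact search11_6
  · exact search11_10

lemma search9a (t : ZMod 9) (h : t = 2 ∨ t = 5 ∨ t = 8) :
    search (5, 5, 5) 4 (list9 t.val) 3 [] = true := by
  rcases h with rfl | rfl | rfl
  · exact search9a_2
  · exact search9a_5
  · exact search9a_8

lemma search9b (t : ZMod 9) (h : t = 2 ∨ t = 5 ∨ t = 8) :
    search (5, 5, 5) 14 (list9 t.val) 4 [] = true := by
  rcases h with rfl | rfl | rfl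
  · exact search9b_2
  · exact search9b_5
  · exact search9b_8

lemma search9c (t : ZMod 9) (h : t = 2 ∨ t = 5 ∨ t = 8) :
    search (6, 6, 6) 4 (list9 t.val) 4 [] = true := by
  rcases h with rfl | rfl | rfl
  · exact search9c_2
  · exact search9c_5
  · exact search9c_8

lemma search9d (t : ZMod 9) (h : t = 2 ∨ t = 5 ∨ t = 8) :
    search (5, 5, 5) 6 (list9 t.val) 5 [] = true := by
  rcases h with rfl | rfl | rfl
  · exact search9d_2
  · exact search9d_5
  · exact search9d_8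

lemma search9e (t : ZMod 9) (h : t = 2 ∨ t = 5 ∨ t = 8) :
    search (14, 5, 5) 6 (list9 t.val) 5 [] = true := by
  rcases h with rfl | rfl | rfl
  · exact search9e_2
  · exact search9e_5
  · exact search9e_8

lemma search9f (t : ZMod 9) (h : t = 2 ∨ t = 5 ∨ t = 8) :
    search (5, 14, 5) 6 (list9 t.val) 5 [] = true := by
  rcases h with rfl | rfl | rfl
  · exact search9f_2
  · exact search9f_5
  · exact search9f_8

lemma search9g (t : ZMod 9) (h : t = 2 ∨ t = 5 ∨ t = 8) :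
    search (5, 5, 14) 6 (list9 t.val) 5 [] = true := by
  rcases h with rfl | rfl | rfl
  · exact search9g_2
  · exact search9g_5
  · exact search9g_8

variable {n : ℕ}

/-- The ratio of the weights. -/
lemma exists_ratio {w : Fin 3 → ZMod n} (hw : ∀ i j, i ≠ j → IsUnit (w i - w j)) :
    ∃ t : ZMod n, w 2 - w 0 = t * (w 1 - w 0) ∧ IsUnit t ∧ IsUnit (t - 1) := by
  obtain ⟨a, ha⟩ := hw 1 0 (by decide)
  refine ⟨(w 2 - w 0) * (↑a⁻¹ : ZMod n), ?_, (hw 2 0 (by decide)).mul a⁻¹.isUnit, ?_⟩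
  · rw [← ha, mul_assoc, Units.inv_mul, mul_one]
  · have h1 : (w 2 - w 0) * (↑a⁻¹ : ZMod n) - 1 = (w 2 - w 1) * (↑a⁻¹ : ZMod n) := by
      have h2 : (a : ZMod n) * (↑a⁻¹ : ZMod n) = 1 := Units.mul_inv a
      rw [ha] at h2
      linear_combination h2
    rw [h1]
    exact (hw 2 1 (by decide)).mul a⁻¹.isUnit

/-- The normalised weights `0, 1, t`. -/
lemma diff_normal {w : Fin 3 → ZMod n} {t : ZMod n} (ht : w 2 - w 0 = t * (w 1 - w 0))
    (i j : Fin 3) (u : ZMod n) :
    (w j - w i) * u = ((![0, 1, t] : Fin 3 → ZMod n) j -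
      (![0, 1, t] : Fin 3 → ZMod n) i) * ((w 1 - w 0) * u) := by
  have key : ∀ i : Fin 3, (![0, 1, t] : Fin 3 → ZMod n) i * (w 1 - w 0) = w i - w 0 := by
    intro i
    fin_cases i
    · simp
    · simp
    · simp [ht]
  linear_combination -u * key j + u * key i

lemma expo_normal {w : Fin 3 → ZMod n} {t : ZMod n} (ht : w 2 - w 0 = t * (w 1 - w 0))
    (i : Fin 3) (m : ℕ) (u : ZMod n) :
    expo w i m u = expo ![0, 1, t] i m ((w 1 - w 0) * u) := by
  unfold expo
  rw [diff_normal ht i (i + 1), diff_normal ht i (i + 2)]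

/-- The search excludes curves with full stabilizers. -/
lemma no_curve [NeZero n] {N : ℕ × ℕ × ℕ} {B m c : ℕ} {L : List (ℕ × ℕ × ℕ)}
    (hs : search N B L c [] = true) (hm : N.1 ≤ m ∧ N.2.1 ≤ m ∧ N.2.2 ≤ m)
    {w h : Fin 3 → ZMod n} (hw : ∀ i j, i ≠ j → IsUnit (w i - w j)) {t : ZMod n}
    (ht : w 2 - w 0 = t * (w 1 - w 0))
    (hL : ∀ i u, u.val.Coprime n → (expo ![0, 1, t] i n u).1 ≤ m →
      (expo ![0, 1, t] i n u).2 ≤ m → triple ![0, 1, t] i u ∈ L)
    {d : ℕ} (C : InvCurve n w h d) (hst : ∀ s, C.stab s = n) (hnum : C.num = c)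
    (hN0 : coordSum C 0 = N.1) (hN1 : coordSum C 1 = N.2.1) (hN2 : coordSum C 2 = N.2.2)
    (hB : 2 * C.delta ≤ B) : False := by
  have hp : 0 < n := Nat.pos_of_ne_zero (NeZero.ne n)
  have hδ := (delta_ge' C).trans hB
  unfold coordSum at hN0 hN1 hN2
  have hcop := C.coprime
  simp only [hst, Nat.div_self hp, one_mul, mul_one, Nat.sub_self, zero_mul, add_zero]
    at hN0 hN1 hN2 hδ hcop
  have hdiff := fun j => fun s => diff_normal (w := w) ht (C.pt s) j (C.u s)
  clear hB hst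
  obtain ⟨g, g0, δ, k, pt, st, hst1, hst2, u, hcop', ord, op, o1, o2, hrot, hdeg, hadj, hrh,
    hind, hδ'⟩ := C
  dsimp only at hnum hN0 hN1 hN2 hδ hcop hdiff
  subst hnum
  refine not_of_search hs hm hL pt (fun s => (w 1 - w 0) * u s)
    (fun s => coprime_mul dvd_rfl (hw 1 0 (by decide)) (hcop s)) ?_ ?_ ?_ ?_
  · rw [← hN0]
    exact sum_congr rfl fun s _ => by rw [← hdiff]
  · rw [← hN1]
    exact sum_congr rfl fun s _ => by rw [← hdiff]
  · rw [← hN2]
    exact sum_congr rfl fun s _ => by rw [← hdiff]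
  · simpa only [expo_normal ht] using hδ

end Pool.Agent.H93.PF
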