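import Pool.Agent.H93.PF.Main

/-!
# The order nine is impossible
-/

namespace Pool.Agent.H93.PF

open Finset

set_option maxRecDepth 100000 in
lemma mod_three_ne : ∀ x y u : ZMod 9, ((x - y).val.Coprime 9 ∧ u.val.Coprime 3) →
    (x * u).val % 3 ≠ (y * u).val % 3 := by
  decide

lemma coprime_of_isUnit {n : ℕ} [NeZero n] {x : ZMod n} (hx : IsUnit x) : x.val.Coprime n := by
  have : IsUnit ((x.val : ℕ) : ZMod n) := by rwa [ZMod.natCast_zmod_val]
  exact (ZMod.isUnit_iff_coprime _ _).1 this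

lemma succ_ne_succ_succ (i : Fin 3) : i + 1 ≠ i + 2 := by
  fin_cases i <;> decide

variable {w h : Fin 3 → ZMod 9} {d : ℕ}

lemma stab_cases (C : InvCurve 9 w h d) (s : Fin C.num) : C.stab s = 3 ∨ C.stab s = 9 := by
  have h1 := C.stab_dvd s
  have h2 := C.one_lt_stab s
  have h3 : C.stab s ≤ 9 := Nat.le_of_dvd (by norm_num) h1
  generalize C.stab s = m at h1 h2 h3
  interval_cases m <;> omega

lemma expo_three (hw : ∀ i j, i ≠ j → IsUnit (w i - w j)) (i : Fin 3) {u : ZMod 9}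
    (hu : u.val.Coprime 3) : expo w i 3 u = (1, 2) ∨ expo w i 3 u = (2, 1) := by
  have a1 := mod_pos (n := 9) (m := 3) (by norm_num) (by norm_num) (hw _ _ (succ_ne i)) hu
  have a2 := mod_pos (n := 9) (m := 3) (by norm_num) (by norm_num) (hw _ _ (succ_succ_ne i)) hu
  have a3 : ((w (i + 1) - w i) * u).val % 3 ≠ ((w (i + 2) - w i) * u).val % 3 := by
    refine mod_three_ne _ _ _ ⟨?_, hu⟩
    rw [show w (i + 1) - w i - (w (i + 2) - w i) = w (i + 1) - w (i + 2) by ring]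
    exact coprime_of_isUnit (hw _ _ (succ_ne_succ_succ i))
  have a4 := Nat.mod_lt ((w (i + 1) - w i) * u).val (show 3 > 0 by norm_num)
  have a5 := Nat.mod_lt ((w (i + 2) - w i) * u).val (show 3 > 0 by norm_num)
  have a6 : (((w (i + 1) - w i) * u).val % 3 = 1 ∧ ((w (i + 2) - w i) * u).val % 3 = 2) ∨
      (((w (i + 1) - w i) * u).val % 3 = 2 ∧ ((w (i + 2) - w i) * u).val % 3 = 1) := by
    omega
  unfold expo
  rcases a6 with ⟨b1, b2⟩ | ⟨b1, b2⟩
  · left
    rw [b1, b2]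
  · right
    rw [b1, b2]

/-- All stabilizers have the order nine. -/
lemma all_nine (hw : ∀ i j, i ≠ j → IsUnit (w i - w j)) {e : ZMod 9}
    (he : ∀ i, h i = -w i + e) (C : InvCurve 9 w h d) (hd : 0 < d) (hd4 : d ≤ 4)
    (s0 : Fin C.num) : C.stab s0 = 9 := by
  refine (stab_cases C s0).resolve_left fun h3 => ?_
  have h1 := four_le C he hd
  have h2 := C.hurwitz
  have h4 := C.adjunction
  -- the contribution of an orbit
  have hG : ∀ s, 8 + (if s = s0 then 10 else 0) ≤ (9 - 9 / C.stab s) + 9 / C.stab s *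
      (selfTerm (expo w (C.pt s) (C.stab s) (C.u s)) +
      (9 / C.stab s - 1) * crossTerm (expo w (C.pt s) (C.stab s) (C.u s))
        (expo w (C.pt s) (C.stab s) (C.u s))) := by
    intro s
    rcases stab_cases C s with hs | hs
    · have hc := C.coprime s
      rw [hs] at hc ⊢
      have h5 : 8 + (if s = s0 then 10 else 0) ≤ 18 := by
        split_ifs <;> omega
      refine h5.trans (le_of_eq ?_)
      rcases expo_three hw (C.pt s) hc with h6 | h6 <;> rw [h6] <;> decide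
    · have h5 : s ≠ s0 := by
        rintro rfl
        omega
      rw [if_neg h5, hs]
      norm_num
  have h7 : 8 * C.num + 10 ≤ ∑ s, (9 - 9 / C.stab s) + 2 * C.delta := by
    refine le_trans ?_ (Nat.add_le_add_left (le_trans (Nat.le_add_right _ _) (delta_ge' C)) _)
    rw [← sum_add_distrib]
    refine le_trans (le_of_eq ?_) (sum_le_sum fun s _ => hG s)
    rw [sum_add_distrib]
    simp [mul_comm]
  have hd' : d = 1 ∨ d = 2 ∨ d = 3 ∨ d = 4 := by omega
  have key : C.quotGenus = 0 ∧ C.num = 4 ∧ d = 4 := by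
    rcases hd' with rfl | rfl | rfl | rfl <;> norm_num at h2 h4 ⊢ <;> omega
  obtain ⟨k1, k2, rfl⟩ := key
  have k3 := coordSum_eq C he hd (by omega)
  have h8 : ∀ j, 9 / C.stab s0 * (((w j - w (C.pt s0)) * C.u s0).val % C.stab s0) ≤
      coordSum C j := fun j => single_le_sum
        (f := fun s => 9 / C.stab s * (((w j - w (C.pt s)) * C.u s).val % C.stab s))
        (fun _ _ => Nat.zero_le _) (mem_univ s0)
  have hc := C.coprime s0
  rw [h3] at h8 hc
  rcases expo_three hw (C.pt s0) hc with h6 | h6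
  · have h9 := h8 (C.pt s0 + 2)
    have h10 := k3 (C.pt s0 + 2)
    have h11 : ((w (C.pt s0 + 2) - w (C.pt s0)) * C.u s0).val % 3 = 2 := congrArg Prod.snd h6
    rw [h11] at h9
    omega
  · have h9 := h8 (C.pt s0 + 1)
    have h10 := k3 (C.pt s0 + 1)
    have h11 : ((w (C.pt s0 + 1) - w (C.pt s0)) * C.u s0).val % 3 = 2 := congrArg Prod.fst h6
    rw [h11] at h9
    omega

lemma ratio_nine : ∀ t : ZMod 9, (t.val.Coprime 9 ∧ (t - 1).val.Coprime 9) →
    t = 2 ∨ t = 5 ∨ t = 8 := by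
  decide

/-- There is no invariant curve. -/
lemma not_nine (hw : ∀ i j, i ≠ j → IsUnit (w i - w j)) {e : ZMod 9}
    (he : ∀ i, h i = -w i + e) (C : InvCurve 9 w h d) (hd : 0 < d) (hd4 : d ≤ 4) : False := by
  have hst := all_nine hw he C hd hd4
  have h1 := four_le C he hd
  have h2 := C.hurwitz
  have h4 := C.adjunction
  have h5 : ∑ s, (9 - 9 / C.stab s) = 8 * C.num := by
    rw [sum_congr rfl fun s _ => by rw [hst s]]
    simp [mul_comm]
  rw [h5] at h2
  have h6 := index_le C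
  obtain ⟨k0, e0⟩ := coordSum_mod C he 0
  obtain ⟨k1, e1⟩ := coordSum_mod C he 1
  obtain ⟨k2, e2⟩ := coordSum_mod C he 2
  obtain ⟨t, ht, ht0, ht1⟩ := exists_ratio hw
  have ht' := ratio_nine t ⟨coprime_of_isUnit ht0, coprime_of_isUnit ht1⟩
  have hL : ∀ (i : Fin 3) (u : ZMod 9), u.val.Coprime 9 → (expo ![0, 1, t] i 9 u).1 ≤ 14 →
      (expo ![0, 1, t] i 9 u).2 ≤ 14 → triple ![0, 1, t] i u ∈ list9 t.val :=
    fun i u hu _ _ => mem9 t i u ⟨ht', hu⟩
  have hd' : d = 1 ∨ d = 2 ∨ d = 3 ∨ d = 4 := by omega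
  have key : (C.num = 3 ∧ 2 * C.delta = 4 ∧ coordSum C 0 = 5 ∧ coordSum C 1 = 5 ∧
        coordSum C 2 = 5) ∨
      (C.num = 4 ∧ 2 * C.delta = 14 ∧ coordSum C 0 = 5 ∧ coordSum C 1 = 5 ∧
        coordSum C 2 = 5) ∨
      (C.num = 4 ∧ 2 * C.delta = 4 ∧ coordSum C 0 = 6 ∧ coordSum C 1 = 6 ∧
        coordSum C 2 = 6) ∨
      (C.num = 5 ∧ 2 * C.delta = 6 ∧ coordSum C 0 = 5 ∧ coordSum C 1 = 5 ∧
        coordSum C 2 = 5) ∨
      (C.num = 5 ∧ 2 * C.delta = 6 ∧ coordSum C 0 = 14 ∧ coordSum C 1 = 5 ∧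
        coordSum C 2 = 5) ∨
      (C.num = 5 ∧ 2 * C.delta = 6 ∧ coordSum C 0 = 5 ∧ coordSum C 1 = 14 ∧
        coordSum C 2 = 5) ∨
      (C.num = 5 ∧ 2 * C.delta = 6 ∧ coordSum C 0 = 5 ∧ coordSum C 1 = 5 ∧
        coordSum C 2 = 14) := by
    clear hL hst h5 ht ht0 ht1 ht'
    rcases hd' with rfl | rfl | rfl | rfl
    · norm_num at h4
      omega
    · norm_num at h4
      omega
    · norm_num at h4
      have h7 : C.quotGenus = 0 ∧ C.num = 4 := by omega
      omega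
    · norm_num at h4
      have h7 : (C.quotGenus = 1 ∧ C.num = 3) ∨ (C.quotGenus = 0 ∧ C.num = 4) ∨
        (C.quotGenus = 0 ∧ C.num = 5) := by omega
      rcases h7 with ⟨h8, h9⟩ | ⟨h8, h9⟩ | ⟨h8, h9⟩ <;> rw [h8, h9] at h6 h2 <;> omega
  rcases key with ⟨n1, n2, n3, n4, n5⟩ | ⟨n1, n2, n3, n4, n5⟩ | ⟨n1, n2, n3, n4, n5⟩ |
    ⟨n1, n2, n3, n4, n5⟩ | ⟨n1, n2, n3, n4, n5⟩ | ⟨n1, n2, n3, n4, n5⟩ | ⟨n1, n2, n3, n4, n5⟩
  · exact no_curve (search9a t ht') (by decide) hw ht hL C hst n1 n3 n4 n5 n2.le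
  · exact no_curve (search9b t ht') (by decide) hw ht hL C hst n1 n3 n4 n5 n2.le
  · exact no_curve (search9c t ht') (by decide) hw ht hL C hst n1 n3 n4 n5 n2.le
  · exact no_curve (search9d t ht') (by decide) hw ht hL C hst n1 n3 n4 n5 n2.le
  · exact no_curve (search9e t ht') (by decide) hw ht hL C hst n1 n3 n4 n5 n2.le
  · exact no_curve (search9f t ht') (by decide) hw ht hL C hst n1 n3 n4 n5 n2.le
  · exact no_curve (search9g t ht') (by decide) hw ht hL C hst n1 n3 n4 n5 n2.le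

end Pool.Agent.H93.PF
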