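import Pool.Agent.H93.PF.Final
import Pool.Agent.H93.PF.Nine

/-!
# The possible orders of a symplectomorphism
-/

namespace Pool.Agent.H93.PF

open Finset

variable {n : ℕ}

lemma comp_le (M : FakePlaneAction n) : M.comp ≤ 4 := by
  rw [← M.degree]
  calc M.comp = ∑ _r : Fin M.comp, 1 := by simp
    _ ≤ ∑ r, M.mult r * M.deg r :=
      sum_le_sum fun r _ => Nat.mul_pos (M.mult_pos r) (M.deg_pos r)

lemma comp_pos (M : FakePlaneAction n) : 0 < M.comp := by
  rw [Nat.pos_iff_ne_zero]
  intro h5
  have h6 := M.degree
  have : IsEmpty (Fin M.comp) := by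
    rw [h5]
    exact Fin.isEmpty
  rw [Finset.univ_eq_empty, sum_empty] at h6
  omega

lemma deg_le (M : FakePlaneAction n) (r : Fin M.comp) : M.deg r ≤ 4 := by
  rw [← M.degree]
  calc M.deg r ≤ M.mult r * M.deg r := Nat.le_mul_of_pos_left _ (M.mult_pos r)
    _ ≤ ∑ r, M.mult r * M.deg r :=
      single_le_sum (f := fun r => M.mult r * M.deg r) (fun _ _ => Nat.zero_le _) (mem_univ r)

/-- The cube of the permutation of the components is trivial. -/
lemma perm_cube (M : FakePlaneAction n) : M.perm ^ 3 = 1 := by
  have h2 := odd_of_isUnit M.isUnit_sub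
  rw [← orderOf_dvd_iff_pow_eq_one]
  have a : orderOf M.perm ∣ n := orderOf_dvd_of_pow_eq_one M.perm_pow
  have b : orderOf M.perm ∣ M.comp.factorial := by
    have := orderOf_dvd_card (x := M.perm)
    rwa [Fintype.card_perm, Fintype.card_fin] at this
  have c : orderOf M.perm ∣ 2 ^ 3 * 3 := by
    have := b.trans (Nat.factorial_dvd_factorial (comp_le M))
    exact this
  have e : (orderOf M.perm).Coprime (2 ^ 3) := by
    refine Nat.Coprime.pow_right 3 (Nat.coprime_comm.1 ?_)
    exact (Nat.Prime.coprime_iff_not_dvd Nat.prime_two).2 fun h => h2 (h.trans a)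
  exact e.dvd_of_dvd_mul_left c

/-- Some component is invariant. -/
lemma exists_fixed (M : FakePlaneAction n) : ∃ r, M.perm r = r := by
  have : Fact (Nat.Prime 3) := ⟨by norm_num⟩
  by_cases h3 : 3 ∣ Fintype.card (Fin M.comp)
  · rw [Fintype.card_fin] at h3
    have hc : M.comp = 3 := by
      have h1 := comp_le M
      have h2 := comp_pos M
      omega
    by_contra hno
    push Not at hno
    -- the number of the components is three, and they all have the same degree
    have hdeg := M.degree
    have hf : ∀ r, M.mult (M.perm r) * M.deg (M.perm r) = M.mult r * M.deg r := fun r => by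
      rw [M.deg_perm, M.mult_perm]
    have hinj := M.perm.injective
    generalize M.perm = σ at hno hf hinj
    have key : ∀ (c : ℕ), c = 3 → ∀ (f : Fin c → ℕ) (σ : Fin c → Fin c),
        Function.Injective σ → (∀ r, σ r ≠ r) → (∀ r, f (σ r) = f r) → 3 ∣ ∑ r, f r := by
      intro c hc f σ hinj hno hf
      subst hc
      have h01 : σ 0 = 1 ∨ σ 0 = 2 := by
        have := hno 0
        generalize σ 0 = x at this
        revert this
        revert x
        decide
      have h10 : σ 1 = 0 ∨ σ 1 = 2 := by
        have := hno 1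
        generalize σ 1 = x at this
        revert this
        revert x
        decide
      have h20 : σ 2 = 0 ∨ σ 2 = 1 := by
        have := hno 2
        generalize σ 2 = x at this
        revert this
        revert x
        decide
      have f0 := hf 0
      have f1 := hf 1
      have f2 := hf 2
      rw [Fin.sum_univ_three]
      rcases h01 with a | a <;> rcases h10 with b | b <;> rcases h20 with c | c <;>
        rw [a] at f0 <;> rw [b] at f1 <;> rw [c] at f2
      · exact ⟨f 0, by omega⟩
      · exact absurd (hinj (a.trans c.symm)) (by decide)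
      · exact ⟨f 0, by omega⟩
      · exact absurd (hinj (a.trans c.symm)) (by decide)
      · exact absurd (hinj (b.trans c.symm)) (by decide)
      · exact ⟨f 0, by omega⟩
      · exact absurd (hinj (a.trans b.symm)) (by decide)
      · exact absurd (hinj (a.trans b.symm)) (by decide)
    have := key M.comp hc (fun r => M.mult r * M.deg r) σ hinj hno hf
    omega
  · have h1 : M.perm ^ 3 ^ 1 = 1 := by
      rw [pow_one]
      exact perm_cube M
    exact Equiv.Perm.exists_fixed_point_of_prime h3 h1

/-- The possible orders which are prime to three or divisible by nine. -/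
theorem order_eq (hn : 1 < n) (h3 : ¬ 3 ∣ n ∨ 9 ∣ n) (M : FakePlaneAction n) :
    n = 5 ∨ n = 7 ∨ n = 11 := by
  have h2 := odd_of_isUnit M.isUnit_sub
  have hne : NeZero n := ⟨by omega⟩
  obtain ⟨e, he⟩ := exists_const M.isUnit_sub M.canonical M.euler h3
  obtain ⟨r, hr⟩ := exists_fixed M
  have C := M.curve r hr
  have hd := M.deg_pos r
  have hd4 := deg_le M r
  have h16 := le_16 C M.isUnit_sub he hd hd4
  have hcases : n = 5 ∨ n = 7 ∨ n = 11 ∨ n = 13 ∨ n = 9 := by omega
  rcases hcases with h | h | h | rfl | rfl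
  · exact Or.inl h
  · exact Or.inr (Or.inl h)
  · exact Or.inr (Or.inr h)
  · exact (not_thirteen M.isUnit_sub he C hd hd4).elim
  · exact (not_nine M.isUnit_sub he C hd hd4).elim

/-- The possible weights for the order eleven. -/
theorem eleven (M : FakePlaneAction 11) (i : Fin 3) :
    (M.w (i + 1) - M.w i) + (M.w (i + 2) - M.w i) ≠ 0 := by
  obtain ⟨e, he⟩ := exists_const M.isUnit_sub M.canonical M.euler (Or.inl (by norm_num))
  obtain ⟨r, hr⟩ := exists_fixed M
  exact not_eleven M.isUnit_sub he (M.curve r hr) (M.deg_pos r) (deg_le M r) i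

/-- If all powers are considered, the orders divisible by three are bounded as well. -/
theorem order_mem (hn : 1 < n) (M : ∀ m, 1 < m → m ∣ n → Nonempty (FakePlaneAction m)) :
    n = 3 ∨ n = 5 ∨ n = 7 ∨ n = 11 ∨ n = 15 ∨ n = 21 ∨ n = 33 := by
  by_cases h3 : ¬ 3 ∣ n ∨ 9 ∣ n
  · obtain ⟨A⟩ := M n hn dvd_rfl
    have := order_eq hn h3 A
    omega
  · push Not at h3
    obtain ⟨⟨m, rfl⟩, h9⟩ := h3
    have hm3 : ¬ 3 ∣ m := fun ⟨k, hk⟩ => h9 ⟨k, by omega⟩
    by_cases hm : 1 < m
    · obtain ⟨A⟩ := M m hm ⟨3, by ring⟩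
      have := order_eq hm (Or.inl hm3) A
      omega
    · omega

end Pool.Agent.H93.PF
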