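import Pool.Agent.H93.PF.Group

/-!
# The structure of the finite groups of symplectomorphisms
-/

namespace Pool.Agent.H93.PF

open MulAction Subgroup

variable {G M : Type*} [Group G] [MulAction G M] [Finite G] (D : FakePlaneGroup G M)

include D

/-- The order of a cyclic group. -/
lemma card_of_cyclic (hG : IsCyclic G) : Nat.card G = 1 ∨ Nat.card G = 3 ∨ Nat.card G = 5 ∨
    Nat.card G = 7 ∨ Nat.card G = 11 ∨ Nat.card G = 15 ∨ Nat.card G = 21 ∨ Nat.card G = 33 := by
  obtain ⟨s, hs⟩ := hG.exists_generator
  rw [← orderOf_eq_card_of_forall_mem_zpowers hs]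
  by_cases h1 : s = 1
  · left
    rw [h1, orderOf_one]
  · exact Or.inr (order_elem D h1)

/-- The groups of order prime to three. -/
theorem prime_to_three (h3 : ¬ 3 ∣ Nat.card G) : IsCyclic G ∧
    (Nat.card G = 1 ∨ Nat.card G = 5 ∨ Nat.card G = 7 ∨ Nat.card G = 11) := by
  suffices hc : IsCyclic G by
    have := card_of_cyclic D hc
    exact ⟨hc, by omega⟩
  have h2 : ¬ 2 ∣ Nat.card G := by
    have := odd_card D
    rwa [← Nat.not_even_iff_odd, even_iff_two_dvd] at this
  rcases subsingleton_or_nontrivial G with hs | hs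
  · exact isCyclic_of_subsingleton
  -- the Sylow subgroups are cyclic
  have hZ : IsZGroup G := ⟨fun p hp P => by
    have : Fact p.Prime := ⟨hp⟩
    by_cases h5 : 5 ≤ p
    · exact pgroup_cyclic (D.restrict (P : Subgroup G)) h5 P.isPGroup'
    · have hp23 : p = 2 ∨ p = 3 := by
        have h6 := hp.two_le
        have h4 : p ≠ 4 := by
          rintro rfl
          revert hp
          norm_num
        omega
      have hnd : ¬ p ∣ Nat.card G := by
        rcases hp23 with rfl | rfl
        · exact h2
        · exact h3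
      have hbot : (P : Subgroup G) = ⊥ := by
        obtain ⟨k, hk⟩ := P.isPGroup'.exists_card_eq
        have h7 : Nat.card P ∣ Nat.card G := card_subgroup_dvd_card _
        rw [← Subgroup.card_eq_one, hk]
        rcases Nat.eq_zero_or_pos k with rfl | hk0
        · exact pow_zero p
        · rw [hk] at h7
          exact absurd ((dvd_pow_self p hk0.ne').trans h7) hnd
      show IsCyclic (P : Subgroup G)
      rw [hbot]
      infer_instance⟩
  -- a cyclic normal subgroup
  obtain ⟨z, hz, hn⟩ : ∃ z : G, z ≠ 1 ∧ (zpowers z).Normal := by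
    by_cases hcom : commutator G = ⊥
    · obtain ⟨z, hz⟩ := exists_ne (1 : G)
      have hcen : center G = ⊤ := (commutator_eq_bot_iff_center_eq_top G).1 hcom
      exact ⟨z, hz, ⟨fun y hy g => by
        have h1 : y ∈ center G := by rw [hcen]; trivial
        rw [mem_center_iff.1 h1 g, mul_inv_cancel_right]
        exact hy⟩⟩
    · obtain ⟨z, hz⟩ := (IsZGroup.isCyclic_commutator (G := G)).exists_generator
      have hzc : zpowers (z : G) = commutator G := by
        apply le_antisymm
        · rw [zpowers_le]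
          exact z.2
        · intro y hy
          obtain ⟨k, hk⟩ := hz ⟨y, hy⟩
          exact ⟨k, by
            have := congrArg (fun y : commutator G => (y : G)) hk
            simpa using this⟩
      refine ⟨z, ?_, ?_⟩
      · intro h
        rw [h, zpowers_one_eq_bot] at hzc
        exact hcom hzc.symm
      · rw [hzc]
        infer_instance
  obtain ⟨S, hS, hi⟩ := exists_cyclic D hz hn
  refine isCyclic_of_index D hS ?_
  have h5 : S.index ∣ Nat.card G := S.index_dvd_card
  have h6 : S.index ≠ 0 := S.index_ne_zero_of_finite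
  have h7 : S.index ≠ 2 := fun h => h2 (h ▸ h5)
  have h8 : S.index ≠ 3 := fun h => h3 (h ▸ h5)
  omega

omit [Finite G] D in
/-- An automorphism of prime order `5`, `7` or `11` of a group of order dividing nine. -/
lemma aut_trivial {P : Type*} [Group P] [Finite P] (h9 : Nat.card P ∣ 9) (φ : MulAut P) {p : ℕ}
    (hp : p = 5 ∨ p = 7 ∨ p = 11) (hφ : φ ^ p = 1) (x : P) : φ x = x := by
  classical
  have hpp : Fact p.Prime := ⟨by rcases hp with rfl | rfl | rfl <;> norm_num⟩
  have := Fintype.ofFinite P
  set σ : Equiv.Perm P := MulAut.toPerm P φ with hσ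
  have h1 : σ ^ p ^ 1 = 1 := by
    rw [pow_one, hσ, ← map_pow, hφ, map_one]
  have h2 := Equiv.Perm.card_compl_support_modEq h1
  set F : Subgroup P := (φ : P →* P).eqLocus (MonoidHom.id P) with hF
  have hmem : ∀ y, y ∈ F ↔ φ y = y := fun y => Iff.rfl
  have h3 : Nat.card F = σ.supportᶜ.card := by
    rw [Nat.card_eq_fintype_card, Fintype.card_subtype]
    congr 1
    ext y
    rw [Finset.mem_filter, Finset.mem_compl, Equiv.Perm.mem_support, not_not, hmem]
    simp only [Finset.mem_univ, true_and]
    exact Iff.rfl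
  have h4 : Nat.card F ∣ Nat.card P := card_subgroup_dvd_card F
  rw [← Nat.card_eq_fintype_card, ← h3] at h2
  have h5 : Nat.card F = Nat.card P := by
    have h6 : Nat.card F ∣ 9 := h4.trans h9
    have h7 := Nat.le_of_dvd (by norm_num) h9
    have h8 := Nat.le_of_dvd (by norm_num) h6
    have h10 : 0 < Nat.card F := Nat.card_pos
    have h11 : 0 < Nat.card P := Nat.card_pos
    generalize Nat.card F = c at *
    generalize Nat.card P = m at *
    unfold Nat.ModEq at h2
    clear hmem hF h1 hσ hφ
    rcases hp with rfl | rfl | rfl <;> interval_cases m <;> try omega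
    all_goals interval_cases c <;> omega
  have h6 : F = ⊤ := Subgroup.eq_top_of_card_eq F h5
  have h7 : x ∈ F := by rw [h6]; trivial
  exact h7

/-- A Sylow subgroup for the prime three lies in the center of its normalizer. -/
lemma normalizer_le [Fact (Nat.Prime 3)] (P : Sylow 3 G) :
    normalizer P ≤ centralizer (P : Set G) := by
  have h9 : Nat.card (P : Subgroup G) ∣ 9 :=
    pgroup_three (D.restrict (P : Subgroup G)) P.isPGroup'
  have hcomm : ∀ a b : (P : Subgroup G), a * b = b * a := by
    obtain ⟨k, hk, hc⟩ := (Nat.dvd_prime_pow (m := 2) Nat.prime_three).1 h9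
    interval_cases k
    · have : Subsingleton (P : Subgroup G) := (Nat.card_eq_one_iff_unique.1 (by simpa using hc)).1
      exact fun a b => Subsingleton.elim _ _
    · have : IsCyclic (P : Subgroup G) := isCyclic_of_prime_card (p := 3) (by simpa using hc)
      let _ := IsCyclic.commGroup (α := (P : Subgroup G))
      exact fun a b => mul_comm a b
    · exact IsPGroup.commutative_of_card_eq_prime_sq (p := 3) hc
  have hA : ∀ g ∈ normalizer P, g ^ 3 = 1 → g ∈ centralizer (P : Set G) := by
    intro g hg h3
    have hp : IsPGroup 3 (zpowers g) := by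
      rintro ⟨y, k, hk⟩
      refine ⟨1, Subtype.ext ?_⟩
      show y ^ 3 ^ 1 = 1
      rw [← hk, pow_one]
      show (g ^ k) ^ 3 = 1
      rw [← zpow_natCast, ← zpow_mul, mul_comm, zpow_mul, zpow_natCast, h3, one_zpow]
    have h4 : g ∈ (P : Subgroup G) := by
      have h5 : g ∈ zpowers g ⊓ normalizer P := ⟨mem_zpowers g, hg⟩
      rw [hp.inf_normalizer_sylow P] at h5
      exact h5.2
    rw [mem_centralizer_iff]
    intro y hy
    exact congrArg Subtype.val (hcomm ⟨y, hy⟩ ⟨g, h4⟩)
  have hB : ∀ p, (p = 5 ∨ p = 7 ∨ p = 11) → ∀ g ∈ normalizer P, g ^ p = 1 →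
      g ∈ centralizer (P : Set G) := by
    intro p hp g hg h1
    have h2 : (P : Subgroup G).normalizerMonoidHom ⟨g, hg⟩ ^ p = 1 := by
      rw [← map_pow]
      have : (⟨g, hg⟩ : normalizer (P : Set G)) ^ p = 1 := Subtype.ext h1
      rw [this, map_one]
    rw [mem_centralizer_iff]
    intro y hy
    have h3 := congrArg Subtype.val (aut_trivial h9 _ hp h2 ⟨y, hy⟩)
    have h4 : g * y * g⁻¹ = y := h3
    calc y * g = (g * y * g⁻¹) * g := by rw [h4]
      _ = g * y := by group
  intro g hg
  by_cases h1 : g = 1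
  · rw [h1]
    exact one_mem _
  have hpow : ∀ k : ℕ, g ^ k ∈ normalizer P := fun k => pow_mem hg k
  have hord : g ^ orderOf g = 1 := pow_orderOf_eq_one g
  have h3 := order_elem D h1
  rcases h3 with h | h | h | h | h | h | h <;> rw [h] at hord
  · exact hA g hg hord
  · exact hB 5 (Or.inl rfl) g hg hord
  · exact hB 7 (Or.inr (Or.inl rfl)) g hg hord
  · exact hB 11 (Or.inr (Or.inr rfl)) g hg hord
  · have a := hA (g ^ 5) (hpow 5) (by rw [← pow_mul]; exact hord)
    have b := hB 5 (Or.inl rfl) (g ^ 3) (hpow 3) (by rw [← pow_mul]; exact hord)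
    have c : (g ^ 3) ^ 2 * (g ^ 5)⁻¹ = g := by group
    rw [← c]
    exact mul_mem (pow_mem b 2) (inv_mem a)
  · have a := hA (g ^ 7) (hpow 7) (by rw [← pow_mul]; exact hord)
    have b := hB 7 (Or.inr (Or.inl rfl)) (g ^ 3) (hpow 3) (by rw [← pow_mul]; exact hord)
    have c : g ^ 7 * ((g ^ 3) ^ 2)⁻¹ = g := by group
    rw [← c]
    exact mul_mem a (inv_mem (pow_mem b 2))
  · have a := hA (g ^ 11) (hpow 11) (by rw [← pow_mul]; exact hord)
    have b := hB 11 (Or.inr (Or.inr rfl)) (g ^ 3) (hpow 3) (by rw [← pow_mul]; exact hord)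
    have c : (g ^ 3) ^ 4 * (g ^ 11)⁻¹ = g := by group
    rw [← c]
    exact mul_mem (pow_mem b 4) (inv_mem a)

/-- The orders of the finite groups of symplectomorphisms. -/
theorem card_dvd : Nat.card G ∣ 45 ∨ Nat.card G ∣ 63 ∨ Nat.card G ∣ 99 := by
  have : Fact (Nat.Prime 3) := ⟨Nat.prime_three⟩
  obtain ⟨P⟩ : Nonempty (Sylow 3 G) := Sylow.nonempty
  have h9 : Nat.card (P : Subgroup G) ∣ 9 :=
    pgroup_three (D.restrict (P : Subgroup G)) P.isPGroup'
  have hN := normalizer_le D P
  have h1 := (MonoidHom.ker_transferSylow_isComplement' P hN).card_mul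
  have h2 := (prime_to_three (D.restrict (MonoidHom.transferSylow P hN).ker)
    (MonoidHom.not_dvd_card_ker_transferSylow P hN)).2
  rw [← h1]
  rcases h2 with h | h | h | h <;> rw [h]
  · left
    rw [one_mul]
    exact h9.trans (by norm_num)
  · left
    exact mul_dvd_mul_left 5 h9
  · right; left
    exact mul_dvd_mul_left 7 h9
  · right; right
    exact mul_dvd_mul_left 11 h9

end Pool.Agent.H93.PF
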