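import Mathlib

/-!
# Groups of odd order with a representation on the complex plane
-/

namespace Pool.Agent.H93.PF

open Module

/-- The eigenvectors of an endomorphism of the plane with two different eigenvalues. -/
lemma eigen_cases {T : (Fin 2 → ℂ) →ₗ[ℂ] (Fin 2 → ℂ)} {a b : ℂ} (hab : a ≠ b)
    {v v' : Fin 2 → ℂ} (hv : v ≠ 0) (hv' : v' ≠ 0) (h1 : T v = a • v) (h2 : T v' = b • v')
    {c : ℂ} {u : Fin 2 → ℂ} (hu : u ≠ 0) (h3 : T u = c • u) :
    (c = a ∧ ∃ s : ℂ, u = s • v) ∨ (c = b ∧ ∃ s : ℂ, u = s • v') := by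
  have hli : LinearIndependent ℂ ![v, v'] := by
    rw [LinearIndependent.pair_iff]
    intro s t hst
    have h4 := congrArg T hst
    rw [map_add, map_smul, map_smul, h1, h2, map_zero] at h4
    have h5 : (s * (a - b)) • v = 0 := by
      calc (s * (a - b)) • v = (s • a • v + t • b • v') - b • (s • v + t • v') := by module
        _ = 0 := by rw [h4, hst, smul_zero, sub_zero]
    have h6 : s = 0 := by
      rcases smul_eq_zero.1 h5 with h | h
      · exact (mul_eq_zero.1 h).resolve_right (sub_ne_zero.2 hab)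
      · exact absurd h hv
    rw [h6, zero_smul, zero_add] at hst
    exact ⟨h6, (smul_eq_zero.1 hst).resolve_right hv'⟩
  have hspan : u ∈ Submodule.span ℂ (Set.range ![v, v']) := by
    rw [hli.span_eq_top_of_card_eq_finrank' (by simp)]
    trivial
  rw [Matrix.range_cons, Matrix.range_cons, Matrix.range_empty, Set.union_empty,
    Set.singleton_union, Submodule.mem_span_pair] at hspan
  obtain ⟨s, t, hst⟩ := hspan
  rw [← hst, map_add, map_smul, map_smul, h1, h2] at h3
  have h7 := (LinearIndependent.pair_iff.1 hli) (s * (a - c)) (t * (b - c)) (by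
    calc (s * (a - c)) • v + (t * (b - c)) • v' =
        (s • a • v + t • b • v') - c • (s • v + t • v') := by module
      _ = 0 := by rw [h3, sub_self])
  by_cases hs : s = 0
  · right
    have ht : t ≠ 0 := by
      rintro rfl
      rw [hs, zero_smul, zero_smul, add_zero] at hst
      exact hu hst.symm
    refine ⟨?_, t, by rw [← hst, hs, zero_smul, zero_add]⟩
    exact (sub_eq_zero.1 ((mul_eq_zero.1 h7.2).resolve_left ht)).symm
  · left
    have hc : c = a := (sub_eq_zero.1 ((mul_eq_zero.1 h7.1).resolve_left hs)).symm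
    have ht : t = 0 := (mul_eq_zero.1 h7.2).resolve_right (sub_ne_zero.2 (hc ▸ hab.symm))
    exact ⟨hc, s, by rw [← hst, ht, zero_smul, add_zero]⟩

/-- A group of odd order which acts on the plane such that no element except `1` has the
eigenvalue one is cyclic if it has a cyclic normal subgroup generated by an element with two
different eigenvalues. -/
theorem isCyclic_of_normal {H : Type*} [Group H] [Finite H] (hodd : Odd (Nat.card H))
    (ρ : H →* Module.End ℂ (Fin 2 → ℂ))
    (hρ : ∀ g, g ≠ 1 → ∀ v, ρ g v = v → v = 0) {z : H} {a b : ℂ} (hab : a ≠ b)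
    (ha : (ρ z).HasEigenvalue a) (hb : (ρ z).HasEigenvalue b)
    (hz : (Subgroup.zpowers z).Normal) : IsCyclic H := by
  obtain ⟨v, hv⟩ := ha.exists_hasEigenvector
  obtain ⟨v', hv'⟩ := hb.exists_hasEigenvector
  have h1 : ρ z v = a • v := hv.apply_eq_smul
  have h2 : ρ z v' = b • v' := hv'.apply_eq_smul
  have v0 : v ≠ 0 := hv.2
  have v0' : v' ≠ 0 := hv'.2
  -- the operators are injective
  have hinj : ∀ (g : H) (u : Fin 2 → ℂ), ρ g u = 0 → u = 0 := by
    intro g u hu
    have : ρ g⁻¹ (ρ g u) = u := by
      rw [← Module.End.mul_apply, ← map_mul, inv_mul_cancel, map_one, Module.End.one_apply]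
    rw [← this, hu, map_zero]
  -- the powers
  have hpow : ∀ (c : ℂ) (u : Fin 2 → ℂ), ρ z u = c • u → ∀ k : ℕ, ρ (z ^ k) u = c ^ k • u := by
    intro c u hu k
    induction k with
    | zero => rw [pow_zero, map_one, Module.End.one_apply, pow_zero, one_smul]
    | succ k ih =>
      rw [pow_succ, map_mul, Module.End.mul_apply, hu, map_smul, ih, pow_succ, smul_smul,
        mul_comm]
  -- conjugation
  have hconj : ∀ h : H, ∃ k : ℕ, z * h = h * z ^ k := by
    intro h
    have h3 : h⁻¹ * z * h ∈ Subgroup.zpowers z := by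
      have := hz.conj_mem z (Subgroup.mem_zpowers z) h⁻¹
      rwa [inv_inv] at this
    rw [← mem_powers_iff_mem_zpowers, Submonoid.mem_powers_iff] at h3
    obtain ⟨k, hk⟩ := h3
    exact ⟨k, by rw [hk]; group⟩
  have key : ∀ h : H, ∃ s : ℂ, ρ (h * h) v = s • v := by
    intro h
    obtain ⟨k, hk⟩ := hconj h
    have h3 : ρ z (ρ h v) = a ^ k • ρ h v := by
      rw [← Module.End.mul_apply, ← map_mul, hk, map_mul, Module.End.mul_apply,
        hpow a v h1, map_smul]
    have h4 : ρ z (ρ h v') = b ^ k • ρ h v' := by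
      rw [← Module.End.mul_apply, ← map_mul, hk, map_mul, Module.End.mul_apply,
        hpow b v' h2, map_smul]
    have n1 : ρ h v ≠ 0 := fun h0 => v0 (hinj h v h0)
    have n2 : ρ h v' ≠ 0 := fun h0 => v0' (hinj h v' h0)
    rw [map_mul, Module.End.mul_apply]
    rcases eigen_cases hab v0 v0' h1 h2 n1 h3 with ⟨_, s, hs⟩ | ⟨_, s, hs⟩
    · exact ⟨s * s, by rw [hs, map_smul, hs, smul_smul]⟩
    · rcases eigen_cases hab v0 v0' h1 h2 n2 h4 with ⟨_, t, ht⟩ | ⟨_, t, ht⟩
      · exact ⟨s * t, by rw [hs, map_smul, ht, smul_smul]⟩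
      · -- both eigenvectors are mapped to the same line
        exfalso
        have h5 : ρ h (t • v - s • v') = 0 := by
          rw [map_sub, map_smul, map_smul, hs, ht, smul_smul, smul_smul, mul_comm, sub_self]
        have h6 := hinj h _ h5
        have h7 : t • v = s • v' := sub_eq_zero.1 h6
        have ht0 : t ≠ 0 := by
          rintro rfl
          exact n2 (by rw [ht, zero_smul])
        have h8 : ρ z (t • v) = b • (t • v) := by
          rw [h7, map_smul, h2, smul_comm]
        rw [map_smul, h1, smul_smul, smul_smul] at h8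
        have h9 : (t * a - b * t) • v = 0 := by rw [sub_smul, h8, sub_self]
        rcases smul_eq_zero.1 h9 with h | h
        · apply hab
          have : t * (a - b) = 0 := by linear_combination h
          exact sub_eq_zero.1 ((mul_eq_zero.1 this).resolve_left ht0)
        · exact v0 h
  have hall : ∀ g : H, ∃ s : ℂ, ρ g v = s • v := by
    intro g
    obtain ⟨j, hj⟩ := hodd
    have h3 : g = g ^ (j + 1) * g ^ (j + 1) := by
      rw [← pow_add]
      have h4 : g ^ Nat.card H = 1 := pow_card_eq_one'
      rw [show j + 1 + (j + 1) = Nat.card H + 1 by omega, pow_add, h4, one_mul, pow_one]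
    rw [h3]
    exact key _
  choose χ hχ using hall
  have hcancel : ∀ s t : ℂ, s • v = t • v → s = t := by
    intro s t hst
    have : (s - t) • v = 0 := by rw [sub_smul, hst, sub_self]
    exact sub_eq_zero.1 ((smul_eq_zero.1 this).resolve_right v0)
  let f : H →* ℂ :=
    { toFun := χ
      map_one' := hcancel _ _ (by rw [← hχ, map_one, Module.End.one_apply, one_smul])
      map_mul' := fun g g' => hcancel _ _ (by
        rw [← hχ, map_mul, Module.End.mul_apply, hχ, map_smul, hχ, smul_smul, mul_comm]) }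
  refine isCyclic_of_subgroup_isDomain f ?_
  intro g g' hgg
  by_contra hne
  have h3 : g⁻¹ * g' ≠ 1 := fun h => hne (inv_mul_eq_one.1 h)
  have h4 : f (g⁻¹ * g') = 1 := by
    rw [map_mul, ← hgg, ← map_mul, inv_mul_cancel, map_one]
  have h5 : ρ (g⁻¹ * g') v = v := by
    rw [hχ]
    change f (g⁻¹ * g') • v = v
    rw [h4, one_smul]
  exact v0 (hρ _ h3 v h5)

end Pool.Agent.H93.PF
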