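import Pool.Agent.H93.PF.TypeB
import Pool.Agent.H18.PG.LowDefs

/-!
# Invariant curves in the classes `H` and `2 H`: the possible orders
-/

namespace Pool.Agent.H93.PF

open Finset

variable {n : ℕ}

lemma expo_coprime [NeZero n] {w : Fin 3 → ZMod n} (hw : ∀ i j, i ≠ j → IsUnit (w i - w j))
    (i : Fin 3) {u : ZMod n} (hu : u.val.Coprime n) :
    (expo w i n u).1.Coprime n ∧ (expo w i n u).2.Coprime n := by
  have hm : ∀ x : ZMod n, x.val % n = x.val := fun x => Nat.mod_eq_of_lt (ZMod.val_lt x)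
  unfold expo
  rw [hm, hm]
  exact ⟨coprime_mul dvd_rfl (hw _ _ (succ_ne _)) hu,
    coprime_mul dvd_rfl (hw _ _ (succ_succ_ne _)) hu⟩

/-- There is no curve of degree one or two with two branches. -/
lemma two_core [NeZero n] (hn : 15 ≤ n) (hn3 : 3 ∣ n) (hn9 : ¬ 9 ∣ n)
    {w h : Fin 3 → ZMod n} (hw : ∀ i j, i ≠ j → IsUnit (w i - w j))
    (h3 : ∀ i j, 3 * ((h i + w i) - (h j + w j)) = 0)
    (hne : ∀ i j, i ≠ j → h i + w i ≠ h j + w j) {d : ℕ} (hd : 0 < d) (hd2 : d ≤ 2)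
    (pt : Fin 2 → Fin 3) (u : Fin 2 → ZMod n) (hcop : ∀ s, (u s).val.Coprime n)
    (ord : Fin 2 → ℕ × ℕ)
    (o1 : ∀ s, (ord s).1 % n = (expo w (pt s) n (u s)).1)
    (o2 : ∀ s, (ord s).2 % n = (expo w (pt s) n (u s)).2)
    (hrot : u 0 + u 1 = 0) (hdeg : h (pt 0) * u 0 + h (pt 1) * u 1 = -d)
    (hcusp : selfTerm (ord 0) + selfTerm (ord 1) ≤ d * (d + 1)) : False := by
  have hpos : 0 < n := by omega
  have hu1 : u 1 = -u 0 := by linear_combination hrot
  have hpq : pt 0 ≠ pt 1 := by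
    intro h0
    rw [← h0, ← mul_add, hrot, mul_zero] at hdeg
    have h2 : ((d : ℕ) : ZMod n) = 0 := by linear_combination hdeg
    rw [ZMod.natCast_eq_zero_iff] at h2
    have := Nat.le_of_dvd hd h2
    omega
  have c0 := expo_coprime hw (pt 0) (hcop 0)
  have c1 := expo_coprime hw (pt 1) (hcop 1)
  have s0 : selfTerm (expo w (pt 0) n (u 0)) ≤ selfTerm (ord 0) := by
    refine self_mono ?_ ?_
    · rw [← o1 0]
      exact Nat.mod_le _ _
    · rw [← o2 0]
      exact Nat.mod_le _ _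
  have s1 : selfTerm (expo w (pt 1) n (u 1)) ≤ selfTerm (ord 1) := by
    refine self_mono ?_ ?_
    · rw [← o1 1]
      exact Nat.mod_le _ _
    · rw [← o2 1]
      exact Nat.mod_le _ _
  have hun : IsUnit (u 0) := by
    have := (ZMod.isUnit_iff_coprime _ _).2 (hcop 0)
    rwa [ZMod.natCast_zmod_val] at this
  have hvc : ((w (pt 1) - w (pt 0)) * u 0).val.Coprime n :=
    coprime_mul dvd_rfl (hw _ _ hpq.symm) (hcop 0)
  obtain ⟨b, b', e1, e2, e3⟩ := pair_form w hpq (u 0)
  rw [← hu1] at e2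
  -- the congruences for the order of vanishing
  have hxd : (w (pt 1) - w (pt 0)) * u 0 + d =
      -(((h (pt 0) + w (pt 0)) - (h (pt 1) + w (pt 1))) * u 0) := by
    rw [hu1] at hdeg
    linear_combination hdeg
  have hv3 : n ∣ 3 * (((w (pt 1) - w (pt 0)) * u 0).val + d) := by
    rw [← ZMod.natCast_eq_zero_iff]
    push_cast
    rw [ZMod.natCast_zmod_val, hxd]
    linear_combination -(u 0) * h3 (pt 0) (pt 1)
  have hv : ¬ 3 ∣ ((w (pt 1) - w (pt 0)) * u 0).val + d := by
    intro h30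
    obtain ⟨m, rfl⟩ := hn3
    have hm : m ∣ ((w (pt 1) - w (pt 0)) * u 0).val + d :=
      Nat.dvd_of_mul_dvd_mul_left (by norm_num) hv3
    have hcm : Nat.Coprime 3 m := by
      rw [Nat.Prime.coprime_iff_not_dvd Nat.prime_three]
      intro h
      exact hn9 (by
        obtain ⟨k, rfl⟩ := h
        exact ⟨k, by ring⟩)
    have h5 := Nat.Coprime.mul_dvd_of_dvd_of_dvd hcm h30 hm
    rw [← ZMod.natCast_eq_zero_iff] at h5
    push_cast at h5
    rw [ZMod.natCast_zmod_val, hxd, neg_eq_zero] at h5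
    have h6 := hun.mul_left_eq_zero.1 h5
    exact hne _ _ hpq (sub_eq_zero.1 h6)
  have hmod : (b + b') % n = ((w (pt 1) - w (pt 0)) * u 0).val := by
    rw [← e3, ZMod.val_natCast]
  have hle : ((w (pt 1) - w (pt 0)) * u 0).val ≤ b + b' := by
    rw [← hmod]
    exact Nat.mod_le _ _
  generalize ((w (pt 1) - w (pt 0)) * u 0).val = v at e1 e2 hv hv3 hle hmod hvc
  have npos : ∀ x : ℕ, x.Coprime n → 0 < x := by
    intro x hx
    rcases Nat.eq_zero_or_pos x with rfl | h0
    · rw [Nat.coprime_zero_left] at hx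
      omega
    · exact h0
  have hb0 : 0 < b := by
    rcases e1 with e1 | e1 <;> rw [e1] at c0
    · exact npos _ c0.2
    · exact npos _ c0.1
  have hb0' : 0 < b' := by
    rcases e2 with e2 | e2 <;> rw [e2] at c1
    · exact npos _ c1.2
    · exact npos _ c1.1
  have hv0 := npos v hvc
  have hv3' : ¬ 3 ∣ v := by
    intro h
    have := Nat.dvd_gcd h hn3
    rw [hvc] at this
    omega
  have t0 : selfTerm (expo w (pt 0) n (u 0)) = (v - 1) * (b - 1) := by
    rcases e1 with e1 | e1 <;> rw [e1]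
    · rfl
    · exact mul_comm _ _
  have t1 : selfTerm (expo w (pt 1) n (u 1)) = (v - 1) * (b' - 1) := by
    rcases e2 with e2 | e2 <;> rw [e2]
    · rfl
    · exact mul_comm _ _
  rw [t0] at s0
  rw [t1] at s1
  have key : (v - 1) * (v - 2) ≤ d * (d + 1) := by
    calc (v - 1) * (v - 2) ≤ (v - 1) * ((b - 1) + (b' - 1)) := Nat.mul_le_mul_left _ (by omega)
      _ = (v - 1) * (b - 1) + (v - 1) * (b' - 1) := by ring
      _ ≤ _ := by omega
  have hv4 : v ≤ 4 := by
    by_contra hlt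
    have h5 : 4 * 3 ≤ (v - 1) * (v - 2) := Nat.mul_le_mul (by omega) (by omega)
    have h6 : d * (d + 1) ≤ 2 * 3 := Nat.mul_le_mul (by omega) (by omega)
    omega
  have hd' : d = 1 ∨ d = 2 := by omega
  have hn12 := Nat.le_of_dvd (by omega) hv3
  rcases hd' with rfl | rfl
  · have hv' : v = 1 ∨ v = 4 := by omega
    rcases hv' with rfl | rfl
    · omega
    · norm_num at key
  · have hv' : v = 2 := by omega
    subst hv'
    omega

/-- There is no invariant curve of degree one or two if the order is at least fifteen and the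
weights of `H` are not the negatives of the weights `w`. -/
lemma sharp_core [NeZero n] (hn : 15 ≤ n) (hn3 : 3 ∣ n) (hn9 : ¬ 9 ∣ n)
    {w h : Fin 3 → ZMod n} (hw : ∀ i j, i ≠ j → IsUnit (w i - w j))
    (h3 : ∀ i j, 3 * ((h i + w i) - (h j + w j)) = 0)
    (hne : ∀ i j, i ≠ j → h i + w i ≠ h j + w j) {d : ℕ} (hd : 0 < d) (hd2 : d ≤ 2)
    (C : Pool.Agent.H18.PG.SharpCurve n w h d) : False := by
  have hpos : 0 < n := by omega
  obtain ⟨k1, k2, k3⟩ := small_curve hn hw C.toInvCurve hd hd2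
  obtain ⟨⟨g, g0, δ, k, pt, st, hst1, hst2, u, hcop, ord, op, o1, o2, hrot, hdeg, hadj, hrh,
    hind, hδ⟩, hcusp⟩ := C
  dsimp only at k1 k2 k3 hcusp
  subst k1
  simp only [k3, Nat.div_self hpos, one_mul, Nat.cast_one, Fin.sum_univ_two] at hcop o1 o2
  simp only [k3, Nat.div_self hpos, one_mul, Nat.cast_one, Fin.sum_univ_two] at hrot hdeg hcusp
  exact two_core hn hn3 hn9 hw h3 hne hd hd2 pt u hcop ord o1 o2 hrot hdeg hcusp

end Pool.Agent.H93.PF
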