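import Pool.Agent.H93.PF.Orders

/-!
# Invariant curves in the classes `H` and `2 H`
-/

namespace Pool.Agent.H93.PF

open Finset

variable {n : ℕ}

/-- The two possible kinds of weights of the line bundle `H`. -/
lemma weights_cases {w h : Fin 3 → ZMod n}
    (hw : ∀ i j, i ≠ j → IsUnit (w i - w j))
    (he : ∀ i, (w (i + 1) - w i) * (w (i + 2) - w i) = (h i - h (i + 1)) * (h i - h (i + 2))) :
    (∃ e : ZMod n, ∀ i, h i = -w i + e) ∨ (∀ i j, i ≠ j → h i + w i ≠ h j + w j) := by
  have e0 := he 0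
  have e1 := he 1
  have e2 := he 2
  simp only [Fin.isValue, zero_add, Fin.reduceAdd] at e0 e1 e2
  have u01 := hw 0 1 (by decide)
  have u02 := hw 0 2 (by decide)
  have u12 := hw 1 2 (by decide)
  by_cases h01 : h 0 + w 0 = h 1 + w 1
  · left
    have h02 : h 0 + w 0 = h 2 + w 2 := by
      apply sub_eq_zero.1
      apply u01.mul_left_cancel
      linear_combination e0 + (h 0 - h 2) * h01
    refine ⟨h 0 + w 0, fun i => ?_⟩
    fin_cases i
    · simp
    · show h 1 = -w 1 + (h 0 + w 0)
      linear_combination -h01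
    · show h 2 = -w 2 + (h 0 + w 0)
      linear_combination -h02
  by_cases h02 : h 0 + w 0 = h 2 + w 2
  · exfalso
    apply h01
    apply sub_eq_zero.1
    apply u02.mul_left_cancel
    linear_combination e0 + (h 0 - h 1) * h02
  by_cases h12 : h 1 + w 1 = h 2 + w 2
  · exfalso
    apply h01
    symm
    apply sub_eq_zero.1
    apply u12.mul_left_cancel
    linear_combination e1 + (h 1 - h 0) * h12
  right
  intro i j hij
  fin_cases i <;> fin_cases j
  · exact absurd rfl hij
  · exact h01
  · exact h02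
  · exact fun h => h01 h.symm
  · exact absurd rfl hij
  · exact h12
  · exact fun h => h02 h.symm
  · exact fun h => h12 h.symm
  · exact absurd rfl hij

lemma three_mul_sub {w h : Fin 3 → ZMod n} {c : ZMod n}
    (hc : ∀ i, (w (i + 1) - w i) + (w (i + 2) - w i) = 3 * h i + c) (i j : Fin 3) :
    3 * ((h i + w i) - (h j + w j)) = 0 := by
  have key : ∀ i, 3 * (h i + w i) = w 0 + w 1 + w 2 - c := by
    intro i
    have := hc i
    fin_cases i <;> simp only [Fin.isValue, zero_add, Fin.reduceAdd, Fin.zero_eta,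
      Fin.mk_one, Fin.reduceFinMk] at this ⊢ <;> linear_combination -this
  rw [mul_sub, key i, key j, sub_self]

/-- An invariant curve of degree one or two is rational and has two branches with full
stabilizers. -/
lemma small_curve [NeZero n] (hn : 15 ≤ n) {w h : Fin 3 → ZMod n} {d : ℕ}
    (hw : ∀ i j, i ≠ j → IsUnit (w i - w j)) (C : InvCurve n w h d) (hd : 0 < d)
    (hd2 : d ≤ 2) : C.num = 2 ∧ C.genus = 0 ∧ ∀ s, C.stab s = n := by
  have hpos : 0 < n := by omega
  have h4 := C.hurwitz
  have h5 : 2 * C.genus + 2 * C.delta ≤ 12 := by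
    have h1 := C.adjunction
    have : d ^ 2 ≤ 2 ^ 2 := Nat.pow_le_pow_left hd2 2
    omega
  have h6 : ∀ s, n - 1 ≤ (n - n / C.stab s) + n / C.stab s *
      (selfTerm (expo w (C.pt s) (C.stab s) (C.u s)) +
      (n / C.stab s - 1) * crossTerm (expo w (C.pt s) (C.stab s) (C.u s))
        (expo w (C.pt s) (C.stab s) (C.u s))) := by
    intro s
    have hq0 : 0 < n / C.stab s := Nat.div_pos (Nat.le_of_dvd hpos (C.stab_dvd s))
      (by have := C.one_lt_stab s; omega)
    have a1 : 0 < (expo w (C.pt s) (C.stab s) (C.u s)).1 :=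
      mod_pos (C.stab_dvd s) (C.one_lt_stab s) (hw _ _ (succ_ne _)) (C.coprime s)
    have a2 : 0 < (expo w (C.pt s) (C.stab s) (C.u s)).2 :=
      mod_pos (C.stab_dvd s) (C.one_lt_stab s) (hw _ _ (succ_succ_ne _)) (C.coprime s)
    have a3 : 1 ≤ crossTerm (expo w (C.pt s) (C.stab s) (C.u s))
        (expo w (C.pt s) (C.stab s) (C.u s)) := lt_min (Nat.mul_pos a1 a2) (Nat.mul_pos a1 a2)
    have hle : n / C.stab s ≤ n := Nat.div_le_self _ _
    obtain ⟨q, hq⟩ : ∃ q, n / C.stab s = q + 1 := ⟨n / C.stab s - 1, by omega⟩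
    rw [hq] at hle ⊢
    rw [Nat.add_sub_cancel]
    have a4 : q * 1 ≤ q * crossTerm (expo w (C.pt s) (C.stab s) (C.u s))
        (expo w (C.pt s) (C.stab s) (C.u s)) := Nat.mul_le_mul_left _ a3
    have a5 : 1 * q ≤ (q + 1) * (selfTerm (expo w (C.pt s) (C.stab s) (C.u s)) +
      q * crossTerm (expo w (C.pt s) (C.stab s) (C.u s))
        (expo w (C.pt s) (C.stab s) (C.u s))) :=
      Nat.mul_le_mul (by omega) (by omega)
    omega
  have h7 : C.num * (n - 1) ≤ ∑ s, (n - n / C.stab s) + 2 * C.delta := by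
    refine le_trans ?_ (Nat.add_le_add_left (le_trans (Nat.le_add_right _ _) (delta_ge' C)) _)
    rw [← sum_add_distrib]
    calc C.num * (n - 1) = ∑ _s : Fin C.num, (n - 1) := by simp
      _ ≤ _ := sum_le_sum fun s _ => h6 s
  -- there is a branch
  have hnum : C.num ≠ 0 := by
    intro h0
    have h1 := C.degree_eq
    have : IsEmpty (Fin C.num) := by
      rw [h0]
      exact Fin.isEmpty
    rw [Finset.univ_eq_empty, sum_empty] at h1
    have h2 : ((d : ℕ) : ZMod n) = 0 := by linear_combination h1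
    rw [ZMod.natCast_eq_zero_iff] at h2
    have := Nat.le_of_dvd hd h2
    omega
  have hg : C.quotGenus = 0 := by
    by_contra h0
    have h8 : 2 * n * 1 ≤ 2 * n * C.quotGenus := Nat.mul_le_mul_left _ (by omega)
    have h9 : 1 * (n - 1) ≤ C.num * (n - 1) := Nat.mul_le_mul_right _ (by omega)
    omega
  rw [hg, mul_zero, add_zero] at h4
  have hnum2 : C.num ≤ 2 := by
    by_contra h0
    have h9 : 3 * (n - 1) ≤ C.num * (n - 1) := Nat.mul_le_mul_right _ (by omega)
    omega
  have hq : ∀ s, 0 < n / C.stab s ∧ n / C.stab s ≤ n := fun s =>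
    ⟨Nat.div_pos (Nat.le_of_dvd hpos (C.stab_dvd s)) (by have := C.one_lt_stab s; omega),
      Nat.div_le_self _ _⟩
  have hsum : ∑ s, (n - n / C.stab s) + ∑ s, n / C.stab s = C.num * n := by
    rw [← sum_add_distrib]
    rw [sum_congr rfl fun s _ => Nat.sub_add_cancel (hq s).2]
    simp
  have hge : C.num ≤ ∑ s, n / C.stab s := by
    calc C.num = ∑ _s : Fin C.num, 1 := by simp
      _ ≤ _ := sum_le_sum fun s _ => (hq s).1
  have hn2 : C.num = 2 := by
    have : C.num = 1 ∨ C.num = 2 := by omega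
    rcases this with h1 | h1
    · have h2 : C.num * n = 1 * n := by rw [h1]
      omega
    · exact h1
  have hs2 : 2 * C.genus + ∑ s, n / C.stab s = 2 := by
    have h2 : C.num * n = 2 * n := by rw [hn2]
    omega
  refine ⟨hn2, by omega, fun s => ?_⟩
  have hone : ∀ s ∈ univ, 1 = n / C.stab s := by
    rw [← sum_eq_sum_iff_of_le fun s _ => (hq s).1]
    simp only [sum_const, card_univ, Fintype.card_fin, smul_eq_mul, mul_one]
    omega
  have h1 := hone s (mem_univ s)
  have h2 := Nat.div_mul_cancel (C.stab_dvd s)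
  rw [← h1, one_mul] at h2
  exact h2

/-- The least orders of vanishing along two branches with opposite parameters. -/
lemma pair_form [NeZero n] (w : Fin 3 → ZMod n) {i j : Fin 3} (hij : i ≠ j) (u : ZMod n) :
    ∃ b b' : ℕ,
      (expo w i n u = (((w j - w i) * u).val, b) ∨ expo w i n u = (b, ((w j - w i) * u).val)) ∧
      (expo w j n (-u) = (((w j - w i) * u).val, b') ∨
        expo w j n (-u) = (b', ((w j - w i) * u).val)) ∧
      ((b + b' : ℕ) : ZMod n) = (w j - w i) * u := by
  have hm : ∀ x : ZMod n, x.val % n = x.val := fun x => Nat.mod_eq_of_lt (ZMod.val_lt x)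
  have key : ∀ i j k : Fin 3, (w j - w i) * u = (w i - w j) * (-u) := by
    intro i j k
    ring
  obtain ⟨k, hk⟩ : ∃ k : Fin 3, (j = i + 1 ∧ k = i + 2) ∨ (j = i + 2 ∧ k = i + 1) := by
    revert hij
    revert i j
    decide
  refine ⟨((w k - w i) * u).val, ((w k - w j) * (-u)).val, ?_, ?_, ?_⟩
  · rcases hk with ⟨rfl, rfl⟩ | ⟨rfl, rfl⟩
    · left
      unfold expo
      rw [hm, hm]
    · right
      unfold expo
      rw [hm, hm]
  · rw [key i j k]
    rcases hk with ⟨rfl, rfl⟩ | ⟨rfl, rfl⟩
    · right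
      unfold expo
      rw [hm, hm, show i + 1 + 1 = i + 2 by rw [add_assoc]; rfl,
        show i + 1 + 2 = i by rw [add_assoc]; simp]
    · left
      unfold expo
      rw [hm, hm, show i + 2 + 1 = i by rw [add_assoc]; simp,
        show i + 2 + 2 = i + 1 by rw [add_assoc]; rfl]
  · rw [Nat.cast_add, ZMod.natCast_zmod_val, ZMod.natCast_zmod_val]
    ring

end Pool.Agent.H93.PF
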