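import Pool.Agent.H93.PF.Defs

/-!
# The weights of the line bundle `H`
-/

namespace Pool.Agent.H93.PF

variable {n : ℕ}

/-- The order is odd. -/
lemma odd_of_isUnit {w : Fin 3 → ZMod n} (hw : ∀ i j, i ≠ j → IsUnit (w i - w j)) : ¬ 2 ∣ n := by
  intro h2
  have f := ZMod.castHom h2 (ZMod 2)
  have h01 := (hw 0 1 (by decide)).map f
  have h12 := (hw 1 2 (by decide)).map f
  have h02 := (hw 0 2 (by decide)).map f
  have key : ∀ a b c : ZMod 2, IsUnit (a - b) → IsUnit (b - c) → IsUnit (a - c) → False := by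
    intro a b c x y z
    have x' := x.ne_zero
    have y' := y.ne_zero
    have z' := z.ne_zero
    revert x' y' z'
    clear x y z
    revert a b c
    decide
  rw [map_sub] at h01 h12 h02
  exact key _ _ _ h01 h12 h02

lemma isUnit_two (h2 : ¬ 2 ∣ n) : IsUnit (2 : ZMod n) := by
  have : IsUnit ((2 : ℕ) : ZMod n) :=
    (ZMod.isUnit_iff_coprime 2 n).2 ((Nat.Prime.coprime_iff_not_dvd Nat.prime_two).2 h2)
  exact_mod_cast this

lemma isUnit_three (h3 : ¬ 3 ∣ n) : IsUnit (3 : ZMod n) := by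
  have : IsUnit ((3 : ℕ) : ZMod n) :=
    (ZMod.isUnit_iff_coprime 3 n).2 ((Nat.Prime.coprime_iff_not_dvd Nat.prime_three).2 h3)
  exact_mod_cast this

/-- If nine divides `n`, the product of two elements killed by three is zero. -/
lemma mul_eq_zero_of_three [NeZero n] (h9 : 9 ∣ n) {x y : ZMod n} (hx : 3 * x = 0)
    (hy : 3 * y = 0) : x * y = 0 := by
  obtain ⟨m, rfl⟩ := h9
  have h1 : ∀ z : ZMod (9 * m), 3 * z = 0 → 3 * m ∣ z.val := by
    intro z hz
    have h2 : ((3 * z.val : ℕ) : ZMod (9 * m)) = 0 := by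
      rw [Nat.cast_mul, ZMod.natCast_zmod_val]
      exact_mod_cast hz
    rw [ZMod.natCast_eq_zero_iff] at h2
    have h3 : 3 * (3 * m) ∣ 3 * z.val := by
      rw [show 3 * (3 * m) = 9 * m by ring]
      exact h2
    exact Nat.dvd_of_mul_dvd_mul_left (by norm_num) h3
  obtain ⟨a, ha⟩ := h1 x hx
  obtain ⟨b, hb⟩ := h1 y hy
  have h4 : ((x.val * y.val : ℕ) : ZMod (9 * m)) = 0 := by
    rw [ZMod.natCast_eq_zero_iff, ha, hb]
    exact ⟨m * a * b, by ring⟩
  rw [Nat.cast_mul, ZMod.natCast_zmod_val, ZMod.natCast_zmod_val] at h4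
  exact h4

/-- The weights of `H` are the negatives of the weights `w`, up to a constant. -/
lemma exists_const [NeZero n] {w h : Fin 3 → ZMod n} {c : ZMod n}
    (hw : ∀ i j, i ≠ j → IsUnit (w i - w j))
    (hc : ∀ i, (w (i + 1) - w i) + (w (i + 2) - w i) = 3 * h i + c)
    (he : ∀ i, (w (i + 1) - w i) * (w (i + 2) - w i) = (h i - h (i + 1)) * (h i - h (i + 2)))
    (hn : ¬ 3 ∣ n ∨ 9 ∣ n) : ∃ e : ZMod n, ∀ i, h i = -w i + e := by
  have c0 := hc 0
  have c1 := hc 1
  have c2 := hc 2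
  have e0 := he 0
  have e1 := he 1
  simp only [Fin.isValue, zero_add, Fin.reduceAdd] at c0 c1 c2 e0 e1
  -- the two differences
  have x1 : 3 * ((h 0 - h 1) + (w 0 - w 1)) = 0 := by linear_combination c1 - c0
  have x2 : 3 * ((h 1 - h 2) + (w 1 - w 2)) = 0 := by linear_combination c2 - c1
  suffices hs : (h 0 - h 1) + (w 0 - w 1) = 0 ∧ (h 1 - h 2) + (w 1 - w 2) = 0 by
    obtain ⟨s1, s2⟩ := hs
    refine ⟨h 0 + w 0, fun i => ?_⟩
    fin_cases i
    · simp
    · show h 1 = -w 1 + (h 0 + w 0)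
      linear_combination -s1
    · show h 2 = -w 2 + (h 0 + w 0)
      linear_combination -s1 - s2
  rcases hn with h3 | h9
  · have u3 := isUnit_three h3
    exact ⟨u3.mul_left_cancel (by rw [x1, mul_zero]), u3.mul_left_cancel (by rw [x2, mul_zero])⟩
  · set A := (h 0 - h 1) + (w 0 - w 1) with hA
    set B := (h 1 - h 2) + (w 1 - w 2) with hB
    have AA : A * A = 0 := mul_eq_zero_of_three h9 x1 x1
    have AB : A * B = 0 := mul_eq_zero_of_three h9 x1 x2
    have u2 := isUnit_two (odd_of_isUnit hw)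
    have v1 := hw 0 1 (by decide)
    have k1 : A * (w 1 - w 2) = B * (w 1 - w 0) := by
      linear_combination -e1 + AB
    have k0 : A * (2 * w 0 - w 1 - w 2) + B * (w 0 - w 1) = 0 := by
      linear_combination e0 + AA + AB
    have a0 : A = 0 := by
      apply (u2.mul v1).mul_left_cancel
      linear_combination k0 - k1
    refine ⟨a0, v1.mul_left_cancel ?_⟩
    rw [a0] at k1
    linear_combination k1

end Pool.Agent.H93.PF
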